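import Mathlib

/-!
# Project CR6, job FMB, part 3: real analysis
-/

set_option autoImplicit false

open Filter Topology Set MeasureTheory
open scoped Real

namespace Pool.Agent.V5helper81.CR6

/-- Fubini for continuous functions on rectangles -/
lemma swap_cont {F : ℝ → ℝ → ℝ} (hF : Continuous (Function.uncurry F)) (a b c d : ℝ) :
    ∫ x in a..b, ∫ y in c..d, F x y = ∫ y in c..d, ∫ x in a..b, F x y := by
  refine intervalIntegral_intervalIntegral_swap ?_
  have h1 : IntegrableOn (Function.uncurry F) (Set.uIcc a b ×ˢ Set.uIcc c d) :=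
    hF.continuousOn.integrableOn_compact (isCompact_uIcc.prod isCompact_uIcc)
  exact h1.mono_set (Set.prod_mono uIoc_subset_uIcc uIoc_subset_uIcc)

lemma tangent (x l : ℝ) : l ^ 4 + 4 * l ^ 3 * (x - l) ≤ x ^ 4 := by
  nlinarith [sq_nonneg (x ^ 2 - l ^ 2), sq_nonneg (l * (x - l)), sq_nonneg (x - l),
    mul_nonneg (sq_nonneg (x - l)) (sq_nonneg (x + l)), mul_nonneg (sq_nonneg l) (sq_nonneg (x - l))]

lemma holder4 {f k : ℝ → ℝ} (hf : Continuous f) (hk : Continuous k) (hk0 : ∀ x, 0 < k x)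
    {a b : ℝ} (hab : a < b) :
    (∫ x in a..b, k x * f x) ^ 4 ≤ (∫ x in a..b, k x) ^ 3 * ∫ x in a..b, k x * f x ^ 4 := by
  have hm : 0 < ∫ x in a..b, k x :=
    intervalIntegral.intervalIntegral_pos_of_pos_on (hk.intervalIntegrable _ _)
      (fun x _ => hk0 x) hab
  set m := ∫ x in a..b, k x with hmd
  set J := ∫ x in a..b, k x * f x with hJ
  set l := J / m with hl
  have h1 : ∫ x in a..b, (k x * (l ^ 4 - 4 * l ^ 4) + 4 * l ^ 3 * (k x * f x)) ≤
      ∫ x in a..b, k x * f x ^ 4 := by
    refine intervalIntegral.integral_mono_on hab.le (Continuous.intervalIntegrable (by fun_prop) _ _)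
      (Continuous.intervalIntegrable (by fun_prop) _ _) fun x _ => ?_
    have h2 := mul_le_mul_of_nonneg_left (tangent (f x) l) (hk0 x).le
    nlinarith
  rw [intervalIntegral.integral_add (Continuous.intervalIntegrable (by fun_prop) _ _)
    (Continuous.intervalIntegrable (by fun_prop) _ _), intervalIntegral.integral_mul_const,
    intervalIntegral.integral_const_mul, ← hmd, ← hJ] at h1
  have h2 : J = l * m := by rw [hl]; field_simp
  have h3 : m * (l ^ 4 - 4 * l ^ 4) + 4 * l ^ 3 * J = l ^ 4 * m := by rw [h2]; ring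
  rw [h3] at h1
  calc J ^ 4 = m ^ 3 * (l ^ 4 * m) := by rw [h2]; ring
    _ ≤ m ^ 3 * ∫ x in a..b, k x * f x ^ 4 := mul_le_mul_of_nonneg_left h1 (by positivity)

lemma holder4_sum {ι : Type} (s : Finset ι) (w a : ι → ℝ) (hw : ∀ i ∈ s, 0 ≤ w i) :
    (∑ i ∈ s, w i * a i) ^ 4 ≤ (∑ i ∈ s, w i) ^ 3 * ∑ i ∈ s, w i * a i ^ 4 := by
  have hm : 0 ≤ ∑ i ∈ s, w i := Finset.sum_nonneg hw
  rcases hm.eq_or_lt with h0 | h0
  · have h1 := (Finset.sum_eq_zero_iff_of_nonneg hw).1 h0.symm
    have h2 : ∑ i ∈ s, w i * a i = 0 := Finset.sum_eq_zero fun i hi => by rw [h1 i hi, zero_mul]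
    rw [h2, ← h0]; simp
  set m := ∑ i ∈ s, w i with hmd
  set J := ∑ i ∈ s, w i * a i with hJ
  set l := J / m with hl
  have h1 : ∑ i ∈ s, (w i * (l ^ 4 - 4 * l ^ 4) + 4 * l ^ 3 * (w i * a i)) ≤
      ∑ i ∈ s, w i * a i ^ 4 := by
    refine Finset.sum_le_sum fun i hi => ?_
    have h2 := mul_le_mul_of_nonneg_left (tangent (a i) l) (hw i hi)
    nlinarith
  rw [Finset.sum_add_distrib, ← Finset.sum_mul, ← Finset.mul_sum, ← hmd, ← hJ] at h1
  have h2 : J = l * m := by rw [hl]; field_simp
  have h3 : m * (l ^ 4 - 4 * l ^ 4) + 4 * l ^ 3 * J = l ^ 4 * m := by rw [h2]; ring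
  rw [h3] at h1
  calc J ^ 4 = m ^ 3 * (l ^ 4 * m) := by rw [h2]; ring
    _ ≤ m ^ 3 * ∑ i ∈ s, w i * a i ^ 4 := mul_le_mul_of_nonneg_left h1 (by positivity)

lemma k_cont : Continuous fun y : ℝ => (1 + |y|)⁻¹ := by
  refine Continuous.inv₀ (by fun_prop) fun y => ?_
  positivity

/-- integration against `1 / (1 + |y|)` by parts -/
lemma layer {g : ℝ → ℝ} (hg : Continuous g) {A R : ℝ} (hR : 0 ≤ R)
    (hF : ∀ w, 0 ≤ w → w ≤ R → ∫ y in (-w)..w, g y ≤ A * w) (hA : 0 ≤ A) :
    ∫ y in (-R)..R, (1 + |y|)⁻¹ * g y ≤ A * (1 + Real.log (1 + R)) := by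
  set p : ℝ → ℝ := fun y => g y + g (-y) with hp
  have hpc : Continuous p := by
    have : Continuous fun y => g (-y) := hg.comp continuous_neg
    exact hg.add this
  have hfold : ∀ (k : ℝ → ℝ), Continuous k → (∀ y, k (-y) = k y) → ∀ w : ℝ,
      ∫ y in (-w)..w, k y * g y = ∫ y in (0 : ℝ)..w, k y * p y := by
    intro k hk hke w
    have h1 : ∫ y in (-w)..w, k y * g y = (∫ y in (-w)..0, k y * g y) + ∫ y in (0 : ℝ)..w, k y * g y :=
      (intervalIntegral.integral_add_adjacent_intervals ((hk.mul hg).intervalIntegrable _ _)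
        ((hk.mul hg).intervalIntegrable _ _)).symm
    have h2 : ∫ y in (-w)..0, k y * g y = ∫ y in (0 : ℝ)..w, k y * g (-y) := by
      have := intervalIntegral.integral_comp_neg (fun y => k y * g y) (a := 0) (b := w)
      simp only [neg_zero, hke] at this
      exact this.symm
    rw [h1, h2, ← intervalIntegral.integral_add]
    · refine intervalIntegral.integral_congr fun y _ => ?_
      simp only [hp]; ring
    · exact (hk.mul (hg.comp continuous_neg)).intervalIntegrable _ _
    · exact (hk.mul hg).intervalIntegrable _ _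
  set G : ℝ → ℝ := fun w => ∫ y in (0 : ℝ)..w, p y with hG
  have hGd : ∀ w, HasDerivAt G (p w) w := fun w =>
    intervalIntegral.integral_hasDerivAt_right (hpc.intervalIntegrable _ _)
      (hpc.stronglyMeasurableAtFilter _ _) hpc.continuousAt
  have hGc : Continuous G := continuous_iff_continuousAt.2 fun w => (hGd w).continuousAt
  have hGle : ∀ w, 0 ≤ w → w ≤ R → G w ≤ A * w := by
    intro w h1 h2
    have h3 := hfold (fun _ => 1) continuous_const (fun _ => rfl) w
    simp only [one_mul] at h3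
    rw [hG]
    simp only
    rw [← h3]
    exact hF w h1 h2
  rw [hfold _ k_cont (fun y => by rw [abs_neg]) R]
  have hcongr : ∫ y in (0 : ℝ)..R, (1 + |y|)⁻¹ * p y = ∫ y in (0 : ℝ)..R, (1 + y)⁻¹ * p y := by
    refine intervalIntegral.integral_congr fun y hy => ?_
    rw [uIcc_of_le hR] at hy
    rw [abs_of_nonneg hy.1]
  rw [hcongr]
  have hud : ∀ x ∈ Ioo (min 0 R) (max 0 R), HasDerivAt (fun y : ℝ => (1 + y)⁻¹)
      (-((1 + x) ^ 2)⁻¹) x := by
    intro x hx
    rw [min_eq_left hR, max_eq_right hR] at hx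
    have h1 : HasDerivAt (fun y : ℝ => 1 + y) 1 x := by simpa using (hasDerivAt_id x).const_add 1
    have h2 : HasDerivAt (fun y : ℝ => (1 + y)⁻¹) (-1 / (1 + x) ^ 2) x :=
      h1.inv (by linarith [hx.1])
    have h3 : -1 / (1 + x) ^ 2 = -((1 + x) ^ 2)⁻¹ := by rw [div_eq_mul_inv]; ring
    rwa [h3] at h2
  have huc : ContinuousOn (fun y : ℝ => (1 + y)⁻¹) (Set.uIcc 0 R) := by
    refine ContinuousOn.inv₀ (by fun_prop) fun y hy => ?_
    rw [uIcc_of_le hR] at hy
    linarith [hy.1]
  have huc' : ContinuousOn (fun y : ℝ => -((1 + y) ^ 2)⁻¹) (Set.uIcc 0 R) := by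
    refine ContinuousOn.neg (ContinuousOn.inv₀ (by fun_prop) fun y hy => ?_)
    rw [uIcc_of_le hR] at hy
    have := hy.1
    positivity
  have hparts := intervalIntegral.integral_mul_deriv_eq_deriv_mul_of_hasDerivAt
    (u := fun y : ℝ => (1 + y)⁻¹) (v := G) (u' := fun y : ℝ => -((1 + y) ^ 2)⁻¹) (v' := p)
    (a := 0) (b := R) huc hGc.continuousOn hud (fun x _ => hGd x)
    huc'.intervalIntegrable (hpc.intervalIntegrable _ _)
  rw [hparts]
  have hG0 : G 0 = 0 := by simp [hG]
  have h5 : ∫ x in (0 : ℝ)..R, -((1 + x) ^ 2)⁻¹ * G x ≥ ∫ x in (0 : ℝ)..R, -(A * (1 + x)⁻¹) := by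
    refine intervalIntegral.integral_mono_on hR ?_ ?_ fun x hx => ?_
    · exact (ContinuousOn.neg (continuousOn_const.mul huc)).intervalIntegrable
    · exact (huc'.mul hGc.continuousOn).intervalIntegrable
    · have h6 := hGle x hx.1 hx.2
      have h7 : 0 < 1 + x := by linarith [hx.1]
      have h8 : ((1 + x) ^ 2)⁻¹ * G x ≤ A * (1 + x)⁻¹ := by
        calc ((1 + x) ^ 2)⁻¹ * G x ≤ ((1 + x) ^ 2)⁻¹ * (A * (1 + x)) := by
              apply mul_le_mul_of_nonneg_left _ (by positivity)
              nlinarith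
          _ = A * (1 + x)⁻¹ := by field_simp
      linarith
  rw [intervalIntegral.integral_neg, intervalIntegral.integral_const_mul] at h5
  have h9 : ∫ x in (0 : ℝ)..R, (1 + x)⁻¹ = Real.log (1 + R) := by
    have := intervalIntegral.integral_comp_add_left (fun x : ℝ => x⁻¹) 1 (a := 0) (b := R)
    rw [this, integral_inv_of_pos (by norm_num) (by linarith)]
    simp
  rw [h9] at h5
  have h10 : (1 + R)⁻¹ * G R ≤ A := by
    have h6 := hGle R hR le_rfl
    have h7 : 0 < 1 + R := by linarith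
    rw [inv_mul_le_iff₀ h7]
    nlinarith
  simp only [hG0, mul_zero, sub_zero]
  linarith

lemma k_int {R : ℝ} (hR : 0 ≤ R) :
    ∫ y in (-R)..R, (1 + |y|)⁻¹ ≤ 2 * (1 + Real.log (1 + R)) := by
  have h := layer (g := fun _ => 1) continuous_const (A := 2) hR (fun w _ _ => by
    rw [intervalIntegral.integral_const]; simp; linarith) (by norm_num)
  simpa using h

/-- the fourth moment of a smoothed function -/
theorem moment {f : ℝ → ℝ} (hf : Continuous f) {A T A0 R : ℝ} (hT : 3 ≤ T)
    (hR : T ≤ R) (hA : 0 ≤ A) (hA0 : -(2 * T) ≤ A0) (hA1 : A0 + T ≤ 2 * T)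
    (hM : ∀ X, 3 ≤ X → X ≤ 3 * R → ∫ t in (-X)..X, f t ^ 4 ≤ A * X) :
    ∫ τ in A0..(A0 + T), (∫ y in (-R)..R, (1 + |y|)⁻¹ * f (τ + y)) ^ 4 ≤
      48 * A * T * (1 + Real.log (1 + R)) ^ 4 := by
  have hR0 : 0 < R := by linarith
  have hT0 : 0 < T := by linarith
  have hf4 : Continuous fun t => f t ^ 4 := hf.pow 4
  have hf4' : Continuous fun p : ℝ × ℝ => f (p.1 + p.2) ^ 4 := hf4.comp (by fun_prop)
  have hle : ∀ a b c d : ℝ, c ≤ a → a ≤ b → b ≤ d → ∫ t in a..b, f t ^ 4 ≤ ∫ t in c..d, f t ^ 4 := by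
    intro a b c d h1 h2 h3
    exact intervalIntegral.integral_mono_interval h1 h2 h3
      (Eventually.of_forall fun t => by positivity) (hf4.intervalIntegrable _ _)
  set Φ : ℝ → ℝ := fun y => ∫ τ in A0..(A0 + T), f (τ + y) ^ 4 with hΦ
  have hΦc : Continuous Φ := by
    apply intervalIntegral.continuous_parametric_intervalIntegral_of_continuous'
    exact hf4'.comp (by fun_prop : Continuous fun p : ℝ × ℝ => (p.2, p.1))
  have hΦ1 : ∀ y, |y| ≤ T → Φ y ≤ 3 * A * T := by
    intro y hy
    have h1 : Φ y = ∫ t in (A0 + y)..(A0 + T + y), f t ^ 4 := by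
      rw [hΦ]
      exact intervalIntegral.integral_comp_add_right (fun t => f t ^ 4) y
    have h2 := abs_le.1 hy
    rw [h1]
    refine (hle _ _ (-(3 * T)) (3 * T) (by linarith) (by linarith) (by linarith)).trans ?_
    exact (hM (3 * T) (by linarith) (by linarith)).trans (le_of_eq (by ring))
  have hF : ∀ w, 0 ≤ w → w ≤ R → ∫ y in (-w)..w, Φ y ≤ (6 * A * T) * w := by
    intro w hw0 hwR
    rcases le_total w T with hw | hw
    · calc ∫ y in (-w)..w, Φ y ≤ ∫ y in (-w)..w, 3 * A * T := by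
            refine intervalIntegral.integral_mono_on (by linarith) (hΦc.intervalIntegrable _ _)
              (continuous_const.intervalIntegrable _ _) fun y hy => hΦ1 y ?_
            rw [abs_le]; constructor <;> linarith [hy.1, hy.2]
        _ = (6 * A * T) * w := by rw [intervalIntegral.integral_const, smul_eq_mul]; ring
    · have h1 : ∫ y in (-w)..w, Φ y = ∫ τ in A0..(A0 + T), ∫ y in (-w)..w, f (τ + y) ^ 4 := by
        rw [hΦ]
        exact swap_cont (F := fun y τ => f (τ + y) ^ 4)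
          (hf4'.comp (by fun_prop : Continuous fun p : ℝ × ℝ => (p.2, p.1))) _ _ _ _
      rw [h1]
      have h2 : ∀ τ ∈ Icc A0 (A0 + T), ∫ y in (-w)..w, f (τ + y) ^ 4 ≤ 3 * A * w := by
        intro τ hτ
        have h3 : ∫ y in (-w)..w, f (τ + y) ^ 4 = ∫ t in (τ + -w)..(τ + w), f t ^ 4 :=
          intervalIntegral.integral_comp_add_left (fun t => f t ^ 4) τ
        rw [h3]
        refine (hle _ _ (-(3 * w)) (3 * w) (by linarith [hτ.1]) (by linarith)
          (by linarith [hτ.2])).trans ?_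
        exact (hM (3 * w) (by linarith) (by linarith)).trans (le_of_eq (by ring))
      calc ∫ τ in A0..(A0 + T), ∫ y in (-w)..w, f (τ + y) ^ 4 ≤ ∫ τ in A0..(A0 + T), 3 * A * w := by
            refine intervalIntegral.integral_mono_on (by linarith) ?_
              (continuous_const.intervalIntegrable _ _) h2
            refine Continuous.intervalIntegrable ?_ _ _
            exact intervalIntegral.continuous_parametric_intervalIntegral_of_continuous' hf4' _ _
        _ = 3 * A * w * T := by rw [intervalIntegral.integral_const, smul_eq_mul]; ring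
        _ ≤ (6 * A * T) * w := by
            have : 0 ≤ A * w * T := by positivity
            nlinarith
  have hlay := layer hΦc hR0.le hF (by positivity)
  have hkΦ : ∫ τ in A0..(A0 + T), ∫ y in (-R)..R, (1 + |y|)⁻¹ * f (τ + y) ^ 4 =
      ∫ y in (-R)..R, (1 + |y|)⁻¹ * Φ y := by
    have h1 : Continuous (Function.uncurry fun τ y : ℝ => (1 + |y|)⁻¹ * f (τ + y) ^ 4) := by
      have h2 : Continuous fun p : ℝ × ℝ => (1 + |p.2|)⁻¹ := k_cont.comp continuous_snd
      exact h2.mul hf4'
    rw [swap_cont h1]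
    refine intervalIntegral.integral_congr fun y _ => ?_
    simp only [hΦ]
    exact intervalIntegral.integral_const_mul _ _
  have hlog : 0 ≤ Real.log (1 + R) := Real.log_nonneg (by linarith)
  have hm := k_int hR0.le
  have hm0 : 0 ≤ ∫ y in (-R)..R, (1 + |y|)⁻¹ :=
    intervalIntegral.integral_nonneg (by linarith) fun y _ => by positivity
  calc ∫ τ in A0..(A0 + T), (∫ y in (-R)..R, (1 + |y|)⁻¹ * f (τ + y)) ^ 4
      ≤ ∫ τ in A0..(A0 + T), (2 * (1 + Real.log (1 + R))) ^ 3 *
        ∫ y in (-R)..R, (1 + |y|)⁻¹ * f (τ + y) ^ 4 := by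
        refine intervalIntegral.integral_mono_on (by linarith) ?_ ?_ fun τ _ => ?_
        · refine Continuous.intervalIntegrable (Continuous.pow ?_ 4) _ _
          refine intervalIntegral.continuous_parametric_intervalIntegral_of_continuous' ?_ _ _
          have h2 : Continuous fun p : ℝ × ℝ => (1 + |p.2|)⁻¹ := k_cont.comp continuous_snd
          exact h2.mul (hf.comp (by fun_prop))
        · refine Continuous.intervalIntegrable (Continuous.mul continuous_const ?_) _ _
          refine intervalIntegral.continuous_parametric_intervalIntegral_of_continuous' ?_ _ _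
          have h2 : Continuous fun p : ℝ × ℝ => (1 + |p.2|)⁻¹ := k_cont.comp continuous_snd
          exact h2.mul hf4'
        · refine (holder4 (f := fun y => f (τ + y)) (hf.comp (by fun_prop)) k_cont
            (fun y => by positivity) (by linarith)).trans ?_
          apply mul_le_mul_of_nonneg_right (pow_le_pow_left₀ hm0 hm 3)
          exact intervalIntegral.integral_nonneg (by linarith) fun y _ => by positivity
    _ = (2 * (1 + Real.log (1 + R))) ^ 3 * ∫ y in (-R)..R, (1 + |y|)⁻¹ * Φ y := by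
        rw [intervalIntegral.integral_const_mul, hkΦ]
    _ ≤ (2 * (1 + Real.log (1 + R))) ^ 3 * (6 * A * T * (1 + Real.log (1 + R))) :=
        mul_le_mul_of_nonneg_left hlay (by positivity)
    _ = _ := by ring

end Pool.Agent.V5helper81.CR6
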