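import Pool.Agent.V5helper81.CR6.FMBb
import Pool.Agent.V5helper81.CR6.FMBc

/-!
# Project CR6, job FMB: the fourth moment of smooth blocks
-/

set_option autoImplicit false

open Complex Filter Topology Set MeasureTheory Metric
open scoped Real

namespace Pool.Agent.V5helper81.CR6

open Pool.Agent.Q236.CR (nt)
open Pool.Agent.V5helper51.CR6 (S_FMC S_SMB S_FMB)

section

variable {q : ℕ} [NeZero q]

/-- the sum up to `N` -/
noncomputable def SN (χ : DirichletCharacter ℂ q) (N : ℕ) (τ : ℝ) : ℂ :=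
  ∑ n ∈ Finset.Ioc 0 N, χ (n : ZMod q) * nt τ n

lemma nt_cont {n : ℕ} (hn : n ≠ 0) : Continuous fun τ : ℝ => nt τ n := by
  unfold nt
  refine Continuous.const_cpow (by fun_prop) (Or.inl ?_)
  exact_mod_cast hn

lemma sum_cont (u v : ℕ) (F : ℕ → ℂ) : Continuous fun τ : ℝ => ∑ n ∈ Finset.Ioc u v, F n * nt τ n := by
  refine continuous_finsetSum _ fun n hn => continuous_const.mul (nt_cont ?_)
  have := (Finset.mem_Ioc.1 hn).1
  omega

lemma Ioc_split {u v : ℕ} (huv : u ≤ v) (f : ℕ → ℂ) :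
    ∑ n ∈ Finset.Ioc u v, f n = ∑ n ∈ Finset.Ioc 0 v, f n - ∑ n ∈ Finset.Ioc 0 u, f n := by
  have h : Finset.Ioc 0 v = Finset.Ioc 0 u ∪ Finset.Ioc u v :=
    (Finset.Ioc_union_Ioc_eq_Ioc (Nat.zero_le u) huv).symm
  rw [h, Finset.sum_union (Finset.Ioc_disjoint_Ioc_of_le le_rfl)]
  ring

/-- Abel summation with the weight `log` -/
lemma abel_eq (f : ℕ → ℂ) (u : ℕ) : ∀ v, u ≤ v →
    ∑ n ∈ Finset.Ioc u v, f n * (Real.log n : ℂ) =
      (Real.log v : ℂ) * ∑ n ∈ Finset.Ioc u v, f n -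
      ∑ w ∈ Finset.Ico u v, ((Real.log (w + 1 : ℕ) - Real.log w : ℝ) : ℂ) *
        ∑ n ∈ Finset.Ioc u w, f n := by
  intro v huv
  induction v, huv using Nat.le_induction with
  | base => simp
  | succ v huv ih =>
    rw [Finset.sum_Ioc_succ_top (by omega), ih, Finset.sum_Ico_succ_top (by omega),
      Finset.sum_Ioc_succ_top (by omega)]
    push_cast
    ring

lemma log_mono {a b : ℕ} (h : a ≤ b) : Real.log a ≤ Real.log b := by
  rcases Nat.eq_zero_or_pos a with h0 | h0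
  · subst h0; simpa using Real.log_natCast_nonneg b
  · exact Real.log_le_log (by exact_mod_cast h0) (by exact_mod_cast h)

lemma sum_weights (u : ℕ) : ∀ v, u ≤ v →
    ∑ w ∈ Finset.Ico u v, (Real.log (w + 1 : ℕ) - Real.log w) = Real.log v - Real.log u := by
  intro v huv
  exact Finset.sum_Ico_sub (fun n : ℕ => Real.log n) huv

lemma four_add (a b : ℝ) : (a + b) ^ 4 ≤ 8 * (a ^ 4 + b ^ 4) := by
  nlinarith [sq_nonneg (a - b), sq_nonneg (a ^ 2 - b ^ 2), sq_nonneg (a * b),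
    mul_nonneg (sq_nonneg (a - b)) (sq_nonneg (a + b)), sq_nonneg ((a - b) ^ 2),
    mul_nonneg (sq_nonneg (a - b)) (sq_nonneg a), mul_nonneg (sq_nonneg (a - b)) (sq_nonneg b)]

lemma block4 (χ : DirichletCharacter ℂ q) {u v : ℕ} (huv : u ≤ v) {E A0 A1 : ℝ} (hA : A0 ≤ A1)
    (hu : ∫ τ in A0..A1, ‖SN χ u τ‖ ^ 4 ≤ E) (hv : ∫ τ in A0..A1, ‖SN χ v τ‖ ^ 4 ≤ E) :
    ∫ τ in A0..A1, ‖∑ n ∈ Finset.Ioc u v, χ (n : ZMod q) * nt τ n‖ ^ 4 ≤ 16 * E := by
  have hc : ∀ N, Continuous fun τ => ‖SN χ N τ‖ ^ 4 := fun N =>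
    (sum_cont 0 N fun n => χ (n : ZMod q)).norm.pow 4
  calc ∫ τ in A0..A1, ‖∑ n ∈ Finset.Ioc u v, χ (n : ZMod q) * nt τ n‖ ^ 4 ≤
      ∫ τ in A0..A1, 8 * (‖SN χ v τ‖ ^ 4 + ‖SN χ u τ‖ ^ 4) := by
        refine intervalIntegral.integral_mono_on hA ?_ ?_ fun τ _ => ?_
        · exact ((sum_cont u v fun n => χ (n : ZMod q)).norm.pow 4).intervalIntegrable _ _
        · exact (continuous_const.mul ((hc v).add (hc u))).intervalIntegrable _ _
        · rw [Ioc_split huv]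
          refine le_trans (pow_le_pow_left₀ (norm_nonneg _) (norm_sub_le _ _) 4) (four_add _ _)
    _ = 8 * ((∫ τ in A0..A1, ‖SN χ v τ‖ ^ 4) + ∫ τ in A0..A1, ‖SN χ u τ‖ ^ 4) := by
        rw [intervalIntegral.integral_const_mul, intervalIntegral.integral_add
          ((hc v).intervalIntegrable _ _) ((hc u).intervalIntegrable _ _)]
    _ ≤ 16 * E := by linarith

lemma block4_log (χ : DirichletCharacter ℂ q) {u v : ℕ} (huv : u ≤ v) {E A0 A1 : ℝ} (hA : A0 ≤ A1)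
    (hE : ∀ w, u ≤ w → w ≤ v →
      ∫ τ in A0..A1, ‖∑ n ∈ Finset.Ioc u w, χ (n : ZMod q) * nt τ n‖ ^ 4 ≤ E) :
    ∫ τ in A0..A1, ‖∑ n ∈ Finset.Ioc u v, (χ (n : ZMod q) * (Real.log n : ℂ)) * nt τ n‖ ^ 4 ≤
      16 * Real.log v ^ 4 * E := by
  set A : ℕ → ℝ → ℝ := fun w τ => ‖∑ n ∈ Finset.Ioc u w, χ (n : ZMod q) * nt τ n‖ with hAd
  have hE0 : 0 ≤ E := (intervalIntegral.integral_nonneg hA fun τ _ => by positivity).trans
    (hE u le_rfl huv)
  have hAc : ∀ w, Continuous (A w) := fun w => (sum_cont u w fun n => χ (n : ZMod q)).norm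
  set ww : ℕ → ℝ := fun w => Real.log (w + 1 : ℕ) - Real.log w with hww
  have hw0 : ∀ w ∈ Finset.Ico u v, 0 ≤ ww w := fun w _ => by
    have := log_mono (Nat.le_succ w)
    simp only [hww]
    simp only [Nat.succ_eq_add_one] at this
    linarith
  have hW : ∑ w ∈ Finset.Ico u v, ww w ≤ Real.log v := by
    rw [hww, sum_weights u v huv]
    linarith [Real.log_natCast_nonneg u]
  have hW0 : 0 ≤ ∑ w ∈ Finset.Ico u v, ww w := Finset.sum_nonneg hw0
  have hL0 : 0 ≤ Real.log v := Real.log_natCast_nonneg v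
  have hpt : ∀ τ, ‖∑ n ∈ Finset.Ioc u v, (χ (n : ZMod q) * (Real.log n : ℂ)) * nt τ n‖ ^ 4 ≤
      8 * (Real.log v ^ 4 * A v τ ^ 4 + Real.log v ^ 3 * ∑ w ∈ Finset.Ico u v, ww w * A w τ ^ 4) := by
    intro τ
    have h1 : ∑ n ∈ Finset.Ioc u v, (χ (n : ZMod q) * (Real.log n : ℂ)) * nt τ n =
        ∑ n ∈ Finset.Ioc u v, (χ (n : ZMod q) * nt τ n) * (Real.log n : ℂ) :=
      Finset.sum_congr rfl fun n _ => by ring
    rw [h1, abel_eq _ u v huv]
    have h2 : ‖(Real.log v : ℂ) * ∑ n ∈ Finset.Ioc u v, χ (n : ZMod q) * nt τ n -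
        ∑ w ∈ Finset.Ico u v, ((Real.log (w + 1 : ℕ) - Real.log w : ℝ) : ℂ) *
        ∑ n ∈ Finset.Ioc u w, χ (n : ZMod q) * nt τ n‖ ≤
        Real.log v * A v τ + ∑ w ∈ Finset.Ico u v, ww w * A w τ := by
      refine (norm_sub_le _ _).trans (add_le_add ?_ ?_)
      · rw [norm_mul, Complex.norm_real, Real.norm_of_nonneg hL0]
      · refine norm_sum_le_of_le _ fun w hw => ?_
        rw [norm_mul, Complex.norm_real, Real.norm_of_nonneg (hw0 w hw)]
    refine (pow_le_pow_left₀ (norm_nonneg _) h2 4).trans ((four_add _ _).trans ?_)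
    apply mul_le_mul_of_nonneg_left _ (by norm_num)
    rw [mul_pow]
    apply add_le_add le_rfl
    refine (holder4_sum _ ww (fun w => A w τ) hw0).trans ?_
    apply mul_le_mul_of_nonneg_right (pow_le_pow_left₀ hW0 hW 3)
    exact Finset.sum_nonneg fun w hw => mul_nonneg (hw0 w hw) (by positivity)
  have hc1 : Continuous fun τ => ∑ w ∈ Finset.Ico u v, ww w * A w τ ^ 4 :=
    continuous_finsetSum _ fun w _ => continuous_const.mul ((hAc w).pow 4)
  have hc2 : Continuous fun τ => A v τ ^ 4 := (hAc v).pow 4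
  calc ∫ τ in A0..A1, ‖∑ n ∈ Finset.Ioc u v, (χ (n : ZMod q) * (Real.log n : ℂ)) * nt τ n‖ ^ 4 ≤
      ∫ τ in A0..A1, 8 * (Real.log v ^ 4 * A v τ ^ 4 +
        Real.log v ^ 3 * ∑ w ∈ Finset.Ico u v, ww w * A w τ ^ 4) := by
        refine intervalIntegral.integral_mono_on hA ?_ ?_ fun τ _ => hpt τ
        · exact ((sum_cont u v _).norm.pow 4).intervalIntegrable _ _
        · exact (continuous_const.mul ((continuous_const.mul hc2).add
            (continuous_const.mul hc1))).intervalIntegrable _ _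
    _ = 8 * (Real.log v ^ 4 * (∫ τ in A0..A1, A v τ ^ 4) +
        Real.log v ^ 3 * ∑ w ∈ Finset.Ico u v, ww w * ∫ τ in A0..A1, A w τ ^ 4) := by
        have i1 : IntervalIntegrable (fun τ => Real.log v ^ 4 * A v τ ^ 4) volume A0 A1 :=
          (continuous_const.mul hc2).intervalIntegrable _ _
        have i2 : IntervalIntegrable (fun τ => Real.log v ^ 3 * ∑ w ∈ Finset.Ico u v, ww w * A w τ ^ 4)
            volume A0 A1 := (continuous_const.mul hc1).intervalIntegrable _ _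
        rw [intervalIntegral.integral_const_mul, intervalIntegral.integral_add i1 i2,
          intervalIntegral.integral_const_mul, intervalIntegral.integral_const_mul,
          intervalIntegral.integral_finsetSum]
        · simp only [intervalIntegral.integral_const_mul]
        · intro w _
          exact (continuous_const.mul ((hAc w).pow 4)).intervalIntegrable _ _
    _ ≤ 8 * (Real.log v ^ 4 * E + Real.log v ^ 3 * (Real.log v * E)) := by
        have h1 : ∑ w ∈ Finset.Ico u v, ww w * ∫ τ in A0..A1, A w τ ^ 4 ≤ Real.log v * E := by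
          calc ∑ w ∈ Finset.Ico u v, ww w * ∫ τ in A0..A1, A w τ ^ 4 ≤
              ∑ w ∈ Finset.Ico u v, ww w * E := by
                refine Finset.sum_le_sum fun w hw => mul_le_mul_of_nonneg_left ?_ (hw0 w hw)
                rw [Finset.mem_Ico] at hw
                exact hE w hw.1 hw.2.le
            _ = (∑ w ∈ Finset.Ico u v, ww w) * E := by rw [Finset.sum_mul]
            _ ≤ _ := mul_le_mul_of_nonneg_right hW hE0
        have h2 : ∫ τ in A0..A1, A v τ ^ 4 ≤ E := hE v huv le_rfl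
        gcongr
    _ = _ := by ring

/-- the sums up to `N` -/
theorem SN4 {C : ℕ} (hFMC : ∀ (q : ℕ) (_ : NeZero q) (χ : DirichletCharacter ℂ q) (κ T : ℝ), 3 ≤ T →
      0 < κ → κ ≤ 1 / 4 → ∫ t in (-T)..T, ‖DirichletCharacter.LFunction χ (⟨1 / 2 + κ, t⟩ : ℂ)‖ ^ 4 ≤
        C * (q : ℝ) ^ C * T * (1 / κ + Real.log T) ^ C)
    (χ : DirichletCharacter ℂ q) (N : ℕ) {T A0 : ℝ} (hT : 3 ≤ T) (hN : (N : ℝ) ≤ 2 * T ^ 2)
    (hA : A0 = T ∨ A0 = -(2 * T)) :
    ∫ τ in A0..(A0 + T), ‖SN χ N τ‖ ^ 4 ≤ 10 ^ 40 * (C + 1) * 20 ^ C * (q : ℝ) ^ (C + 4) * T *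
      (N : ℝ) ^ 2 * Real.log T ^ (C + 4) := by
  have hT0 : 0 < T := by linarith
  have hlT : 1 ≤ Real.log T := by
    rw [Real.le_log_iff_exp_le hT0]
    linarith [Real.exp_one_lt_d9]
  have hq : (1 : ℝ) ≤ q := by exact_mod_cast NeZero.one_le
  rcases Nat.eq_zero_or_pos N with h0 | hN1
  · subst h0
    simp [SN]
  have hNr : (1 : ℝ) ≤ N := by exact_mod_cast hN1
  set ℓ := Real.log T with hℓ
  set κ : ℝ := 1 / (4 * ℓ) with hκ
  have hκ0 : 0 < κ := by positivity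
  have hκ1 : κ ≤ 1 / 4 := by
    rw [hκ]
    apply one_div_le_one_div_of_le (by norm_num)
    linarith
  have hlogN : Real.log N ≤ 3 * ℓ := by
    have h1 : Real.log N ≤ Real.log (2 * T ^ 2) := Real.log_le_log (by linarith) hN
    rw [Real.log_mul (by norm_num) (by positivity), Real.log_pow] at h1
    have := Real.log_two_lt_d9
    push_cast at h1
    linarith
  have hlogN0 : 0 ≤ Real.log N := Real.log_natCast_nonneg N
  have hκ2 : κ * Real.log N ≤ 2 := by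
    calc κ * Real.log N ≤ κ * (3 * ℓ) := by gcongr
      _ = 3 / 4 := by rw [hκ]; field_simp
      _ ≤ 2 := by norm_num
  set R : ℝ := T ^ 6 with hR
  have hTR : T ≤ R := by
    calc T = T ^ 1 := (pow_one T).symm
      _ ≤ T ^ 6 := pow_le_pow_right₀ (by linarith) (by norm_num)
  have hR3 : 3 ≤ R := hT.trans hTR
  set B : ℝ := C * (q : ℝ) ^ C * (20 * ℓ) ^ C with hB
  have hB0 : 0 ≤ B := by positivity
  have hA0 : -(2 * T) ≤ A0 := by rcases hA with h | h <;> rw [h] <;> linarith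
  have hA1 : A0 + T ≤ 2 * T := by rcases hA with h | h <;> rw [h] <;> linarith
  have hlogR : Real.log R = 6 * ℓ := by rw [hR, Real.log_pow, hℓ]; norm_num
  have hM : ∀ X, 3 ≤ X → X ≤ 3 * R → ∫ t in (-X)..X, Lb χ κ t ^ 4 ≤ B * X := by
    intro X h3 hX
    refine (hFMC q inferInstance χ κ X h3 hκ0 hκ1).trans ?_
    have h4 : 1 / κ + Real.log X ≤ 20 * ℓ := by
      have h5 : 1 / κ = 4 * ℓ := by rw [hκ, one_div_one_div]
      have h6 : Real.log X ≤ Real.log (3 * R) := Real.log_le_log (by linarith) hX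
      have h7 : Real.log (3 * R) ≤ 2 + 6 * ℓ := by
        rw [Real.log_mul (by norm_num) (by linarith), hlogR]
        have h8 : Real.log 3 ≤ 2 := by
          have := Real.log_le_sub_one_of_pos (by norm_num : (0 : ℝ) < 3)
          linarith
        linarith
      linarith
    have h8 : 0 ≤ 1 / κ + Real.log X := by
      have : 0 ≤ Real.log X := Real.log_nonneg (by linarith)
      positivity
    calc C * (q : ℝ) ^ C * X * (1 / κ + Real.log X) ^ C ≤
        C * (q : ℝ) ^ C * X * (20 * ℓ) ^ C := by gcongr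
      _ = B * X := by rw [hB]; ring
  have hmom := moment (Lb_cont χ hκ1) hT hTR hB0 hA0 hA1 hM
  have hlog1R : 1 + Real.log (1 + R) ≤ 10 * ℓ := by
    have h1 : Real.log (1 + R) ≤ Real.log (2 * R) := Real.log_le_log (by linarith) (by linarith)
    rw [Real.log_mul (by norm_num) (by linarith), hlogR] at h1
    have := Real.log_two_lt_d9
    linarith
  have hlog1R0 : 0 ≤ 1 + Real.log (1 + R) := by
    have : 0 ≤ Real.log (1 + R) := Real.log_nonneg (by linarith)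
    linarith
  have hτ : ∀ τ ∈ Icc A0 (A0 + T), T ≤ |τ| ∧ |τ| ≤ 2 * T := by
    intro τ hτ
    rcases hA with h | h
    · rw [h] at hτ
      rw [abs_of_nonneg (by linarith [hτ.1])]
      exact ⟨hτ.1, by linarith [hτ.2]⟩
    · rw [h] at hτ
      rw [abs_of_nonpos (by linarith [hτ.2])]
      exact ⟨by linarith [hτ.2], by linarith [hτ.1]⟩
  set J : ℝ → ℝ := fun τ => ∫ y in (-R)..R, (1 + |y|)⁻¹ * Lb χ κ (τ + y) with hJ
  have hJc : Continuous J := by
    refine intervalIntegral.continuous_parametric_intervalIntegral_of_continuous' ?_ _ _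
    have h2 : Continuous fun p : ℝ × ℝ => (1 + |p.2|)⁻¹ := k_cont.comp continuous_snd
    exact h2.mul ((Lb_cont χ hκ1).comp (by fun_prop))
  have hpt : ∀ τ ∈ Icc A0 (A0 + T), ‖SN χ N τ‖ ^ 4 ≤
      8 * 10 ^ 20 * (N : ℝ) ^ 2 * ((q * (5 * ℓ)) ^ 4 + J τ ^ 4) := by
    intro τ h
    obtain ⟨h1, h2⟩ := hτ τ h
    have h3 := pointwise χ hN1 hT hN h1 h2 hκ0 hκ1 hκ2
    have h4 : 0 ≤ J τ := intervalIntegral.integral_nonneg (by linarith) fun y _ => by
      unfold Lb; positivity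
    have h5 : (q : ℝ) * (2 + Real.log N) ≤ q * (5 * ℓ) := by
      apply mul_le_mul_of_nonneg_left _ (by positivity)
      linarith
    have h6 : ‖SN χ N τ‖ ≤ 10 ^ 5 * Real.sqrt N * (q * (5 * ℓ) + J τ) := by
      refine h3.trans ?_
      apply mul_le_mul_of_nonneg_left _ (by positivity)
      exact add_le_add h5 le_rfl
    have h7 : Real.sqrt N ^ 4 = (N : ℝ) ^ 2 := by
      have : Real.sqrt N ^ 4 = (Real.sqrt N ^ 2) ^ 2 := by ring
      rw [this, Real.sq_sqrt (by positivity)]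
    calc ‖SN χ N τ‖ ^ 4 ≤ (10 ^ 5 * Real.sqrt N * (q * (5 * ℓ) + J τ)) ^ 4 :=
          pow_le_pow_left₀ (norm_nonneg _) h6 4
      _ = 10 ^ 20 * (N : ℝ) ^ 2 * (q * (5 * ℓ) + J τ) ^ 4 := by
          rw [mul_pow, mul_pow, h7]; norm_num
      _ ≤ 10 ^ 20 * (N : ℝ) ^ 2 * (8 * ((q * (5 * ℓ)) ^ 4 + J τ ^ 4)) :=
          mul_le_mul_of_nonneg_left (four_add _ _) (by positivity)
      _ = _ := by ring
  have hSc : Continuous fun τ => ‖SN χ N τ‖ ^ 4 := (sum_cont 0 N fun n => χ (n : ZMod q)).norm.pow 4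
  have hqC : (q : ℝ) ^ 4 ≤ (q : ℝ) ^ (C + 4) := pow_le_pow_right₀ hq (by omega)
  have hqC' : (q : ℝ) ^ C ≤ (q : ℝ) ^ (C + 4) := pow_le_pow_right₀ hq (by omega)
  have hlC : ℓ ^ 4 ≤ ℓ ^ (C + 4) := pow_le_pow_right₀ hlT (by omega)
  have h20 : (1 : ℝ) ≤ 20 ^ C := one_le_pow₀ (by norm_num)
  calc ∫ τ in A0..(A0 + T), ‖SN χ N τ‖ ^ 4 ≤
      ∫ τ in A0..(A0 + T), 8 * 10 ^ 20 * (N : ℝ) ^ 2 * ((q * (5 * ℓ)) ^ 4 + J τ ^ 4) := by
        refine intervalIntegral.integral_mono_on (by linarith) (hSc.intervalIntegrable _ _) ?_ hpt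
        exact (continuous_const.mul (continuous_const.add (hJc.pow 4))).intervalIntegrable _ _
    _ = 8 * 10 ^ 20 * (N : ℝ) ^ 2 * (T * (q * (5 * ℓ)) ^ 4 + ∫ τ in A0..(A0 + T), J τ ^ 4) := by
        have i1 : IntervalIntegrable (fun _ : ℝ => ((q : ℝ) * (5 * ℓ)) ^ 4) volume A0 (A0 + T) :=
          continuous_const.intervalIntegrable _ _
        have i2 : IntervalIntegrable (fun τ => J τ ^ 4) volume A0 (A0 + T) :=
          (hJc.pow 4).intervalIntegrable _ _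
        rw [intervalIntegral.integral_const_mul, intervalIntegral.integral_add i1 i2,
          intervalIntegral.integral_const, smul_eq_mul]
        congr 2
        ring
    _ ≤ 8 * 10 ^ 20 * (N : ℝ) ^ 2 * (T * (q * (5 * ℓ)) ^ 4 + 48 * B * T * (10 * ℓ) ^ 4) := by
        have h1 : 48 * B * T * (1 + Real.log (1 + R)) ^ 4 ≤ 48 * B * T * (10 * ℓ) ^ 4 := by gcongr
        have h2 := hmom.trans h1
        gcongr
    _ = 8 * 10 ^ 20 * (N : ℝ) ^ 2 * T * (625 * ((q : ℝ) ^ 4 * ℓ ^ 4) +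
        480000 * (C * 20 ^ C * ((q : ℝ) ^ C * ℓ ^ (C + 4)))) := by
        rw [hB]; ring
    _ ≤ 8 * 10 ^ 20 * (N : ℝ) ^ 2 * T * (625 * (20 ^ C * ((q : ℝ) ^ (C + 4) * ℓ ^ (C + 4))) +
        480000 * (C * 20 ^ C * ((q : ℝ) ^ (C + 4) * ℓ ^ (C + 4)))) := by
        have h1 : (q : ℝ) ^ 4 * ℓ ^ 4 ≤ 20 ^ C * ((q : ℝ) ^ (C + 4) * ℓ ^ (C + 4)) := by
          calc (q : ℝ) ^ 4 * ℓ ^ 4 ≤ (q : ℝ) ^ (C + 4) * ℓ ^ (C + 4) := by gcongr
            _ ≤ 20 ^ C * ((q : ℝ) ^ (C + 4) * ℓ ^ (C + 4)) :=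
                le_mul_of_one_le_left (by positivity) h20
        gcongr
    _ ≤ _ := by
        have hP : 0 ≤ (N : ℝ) ^ 2 * T * 20 ^ C * ((q : ℝ) ^ (C + 4) * ℓ ^ (C + 4)) := by positivity
        have hC0 : (0 : ℝ) ≤ C := Nat.cast_nonneg C
        have e1 : 8 * 10 ^ 20 * (N : ℝ) ^ 2 * T * (625 * (20 ^ C * ((q : ℝ) ^ (C + 4) * ℓ ^ (C + 4))) +
            480000 * (C * 20 ^ C * ((q : ℝ) ^ (C + 4) * ℓ ^ (C + 4)))) =
            (8 * 10 ^ 20 * (625 + 480000 * C)) *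
              ((N : ℝ) ^ 2 * T * 20 ^ C * ((q : ℝ) ^ (C + 4) * ℓ ^ (C + 4))) := by ring
        have e2 : 10 ^ 40 * ((C : ℝ) + 1) * 20 ^ C * (q : ℝ) ^ (C + 4) * T * (N : ℝ) ^ 2 * ℓ ^ (C + 4) =
            (10 ^ 40 * ((C : ℝ) + 1)) *
              ((N : ℝ) ^ 2 * T * 20 ^ C * ((q : ℝ) ^ (C + 4) * ℓ ^ (C + 4))) := by ring
        rw [e1, e2]
        apply mul_le_mul_of_nonneg_right _ hP
        nlinarith

end

/-- **FMB** -/
theorem fmb : S_FMC → S_SMB → S_FMB := by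
  rintro ⟨C, hFMC⟩ -
  obtain ⟨D, hD⟩ := exists_nat_ge (16 * 6 ^ 4 * (64 * (10 ^ 40 * ((C : ℝ) + 1) * 20 ^ C)))
  refine ⟨max D (C + 8), ?_⟩
  intro q _ χ F M u v T hF hM hu hv hT hMT
  set D' := max D (C + 8) with hD'
  have hT0 : 0 < T := by linarith
  have hlT : 1 ≤ Real.log T := by
    rw [Real.le_log_iff_exp_le hT0]
    linarith [Real.exp_one_lt_d9]
  have hq : (1 : ℝ) ≤ q := by exact_mod_cast NeZero.one_le
  have hMr : (1 : ℝ) ≤ M := by exact_mod_cast hM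
  have hv' : (v : ℝ) ≤ 2 * M := by exact_mod_cast hv
  set K : ℝ := 10 ^ 40 * ((C : ℝ) + 1) * 20 ^ C with hK
  have hK0 : 0 ≤ K := by positivity
  have hC0 : (0 : ℝ) ≤ C := Nat.cast_nonneg C
  have main : ∀ A0 : ℝ, (A0 = T ∨ A0 = -(2 * T)) →
      ∫ τ in A0..(A0 + T), ‖∑ n ∈ Finset.Ioc u v, F n * nt τ n‖ ^ 4 ≤
        D' * (q : ℝ) ^ D' * T * M ^ 2 * Real.log T ^ D' := by
    intro A0 hA
    have hrhs : (16 * 6 ^ 4 * (64 * K)) * ((q : ℝ) ^ (C + 4) * T * (M : ℝ) ^ 2 * Real.log T ^ (C + 8)) ≤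
        D' * (q : ℝ) ^ D' * T * M ^ 2 * Real.log T ^ D' := by
      have h1 : (16 * 6 ^ 4 * (64 * K)) ≤ (D' : ℝ) := by
        refine hD.trans ?_
        exact_mod_cast le_max_left _ _
      have h2 : (q : ℝ) ^ (C + 4) ≤ (q : ℝ) ^ D' :=
        pow_le_pow_right₀ hq ((by omega : C + 4 ≤ C + 8).trans (le_max_right _ _))
      have h3 : Real.log T ^ (C + 8) ≤ Real.log T ^ D' := pow_le_pow_right₀ hlT (le_max_right _ _)
      calc (16 * 6 ^ 4 * (64 * K)) * ((q : ℝ) ^ (C + 4) * T * (M : ℝ) ^ 2 * Real.log T ^ (C + 8)) ≤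
          D' * ((q : ℝ) ^ D' * T * (M : ℝ) ^ 2 * Real.log T ^ D') := by gcongr
        _ = _ := by ring
    rcases le_or_gt v u with huv | huv
    · have h0 : Finset.Ioc u v = ∅ := Finset.Ioc_eq_empty_of_le huv
      rw [h0]
      simp only [Finset.sum_empty, norm_zero]
      rw [intervalIntegral.integral_const]
      simp only [ne_eq, OfNat.ofNat_ne_zero, not_false_eq_true, zero_pow, smul_zero]
      positivity
    have hN : ∀ N : ℕ, N ≤ v → ∫ τ in A0..(A0 + T), ‖SN χ N τ‖ ^ 4 ≤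
        4 * K * ((q : ℝ) ^ (C + 4) * T * (M : ℝ) ^ 2 * Real.log T ^ (C + 4)) := by
      intro N hNv
      have hN1 : (N : ℝ) ≤ 2 * M := by
        have : (N : ℝ) ≤ v := by exact_mod_cast hNv
        linarith
      refine (SN4 hFMC χ N hT (hN1.trans (by linarith)) hA).trans ?_
      have h1 : (N : ℝ) ^ 2 ≤ 4 * M ^ 2 := by
        calc (N : ℝ) ^ 2 ≤ (2 * M) ^ 2 := pow_le_pow_left₀ (Nat.cast_nonneg _) hN1 2
          _ = 4 * M ^ 2 := by ring
      calc 10 ^ 40 * ((C : ℝ) + 1) * 20 ^ C * (q : ℝ) ^ (C + 4) * T * (N : ℝ) ^ 2 *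
          Real.log T ^ (C + 4) ≤ 10 ^ 40 * ((C : ℝ) + 1) * 20 ^ C * (q : ℝ) ^ (C + 4) * T *
          (4 * M ^ 2) * Real.log T ^ (C + 4) := by gcongr
        _ = _ := by rw [hK]; ring
    have hblock : ∀ w, u ≤ w → w ≤ v →
        ∫ τ in A0..(A0 + T), ‖∑ n ∈ Finset.Ioc u w, χ (n : ZMod q) * nt τ n‖ ^ 4 ≤
        16 * (4 * K * ((q : ℝ) ^ (C + 4) * T * (M : ℝ) ^ 2 * Real.log T ^ (C + 4))) := fun w h1 h2 =>
      block4 χ h1 (by linarith) (hN u huv.le) (hN w h2)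
    have hl4 : Real.log T ^ (C + 4) ≤ Real.log T ^ (C + 8) := pow_le_pow_right₀ hlT (by omega)
    refine le_trans ?_ hrhs
    rcases hF with h | h
    · rw [h]
      refine (hblock v huv.le le_rfl).trans ?_
      calc 16 * (4 * K * ((q : ℝ) ^ (C + 4) * T * (M : ℝ) ^ 2 * Real.log T ^ (C + 4))) ≤
          16 * (4 * K * ((q : ℝ) ^ (C + 4) * T * (M : ℝ) ^ 2 * Real.log T ^ (C + 8))) := by gcongr
        _ = (64 * K) * ((q : ℝ) ^ (C + 4) * T * (M : ℝ) ^ 2 * Real.log T ^ (C + 8)) := by ring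
        _ ≤ _ := by
            apply mul_le_mul_of_nonneg_right _ (by positivity)
            linarith
    · rw [h]
      refine (block4_log χ huv.le (by linarith) hblock).trans ?_
      have hlv : Real.log v ≤ 6 * Real.log T := by
        have h1 : Real.log v ≤ Real.log (2 * T ^ 2) :=
          Real.log_le_log (by exact_mod_cast (by omega : 0 < v)) (by linarith)
        rw [Real.log_mul (by norm_num) (by positivity), Real.log_pow] at h1
        have := Real.log_two_lt_d9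
        push_cast at h1
        linarith
      have hlv0 : 0 ≤ Real.log v := Real.log_natCast_nonneg v
      calc 16 * Real.log v ^ 4 *
          (16 * (4 * K * ((q : ℝ) ^ (C + 4) * T * (M : ℝ) ^ 2 * Real.log T ^ (C + 4)))) ≤
          16 * (6 * Real.log T) ^ 4 *
          (16 * (4 * K * ((q : ℝ) ^ (C + 4) * T * (M : ℝ) ^ 2 * Real.log T ^ (C + 4)))) := by gcongr
        _ = _ := by ring
  constructor
  · have := main T (Or.inl rfl)
    rwa [show T + T = 2 * T by ring] at this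
  · have := main (-(2 * T)) (Or.inr rfl)
    rwa [show -(2 * T) + T = -T by ring] at this

end Pool.Agent.V5helper81.CR6
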