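import Pool.Agent.V5helper51.CR6.Stm
import Pool.Agent.V5helper22.CR.LUP
import Pool.Agent.V5helper98.CR.MocA

/-!
# Project CR6, job FMB, part 1: growth of `L(s, χ)`, Riesz sums, unsmoothing
-/

set_option autoImplicit false

open Complex Filter Topology Set MeasureTheory Metric
open scoped Real

namespace Pool.Agent.V5helper81.CR6

open Pool.Agent.H379R2.SW (vert vert_re vert_im vert_ne_zero continuous_vert)
open Pool.Agent.W66 (exp_vert integrable_inv_norm_vert_sq' perron_vert)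
open Pool.Agent.Y25.VK (norm_exp_vert tail_arctan)
open Pool.Agent.Q236.CR (nt)

section growth

variable {q : ℕ} [NeZero q]

theorem norm_L_le (χ : DirichletCharacter ℂ q) {s : ℂ} (h1 : 1 / 2 ≤ s.re) (h2 : s.re ≤ 2)
    (h3 : 1 ≤ |s.im|) : ‖DirichletCharacter.LFunction χ s‖ ≤ 20 * q * |s.im| := by
  have hq : (1 : ℝ) ≤ q := by exact_mod_cast NeZero.one_le
  have hs0 : 0 < s.re := by linarith
  have hns : ‖s‖ ≤ 3 * |s.im| := by
    refine (norm_le_abs_re_add_abs_im s).trans ?_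
    rw [abs_of_pos hs0]
    linarith
  rcases eq_or_ne χ 1 with h | h
  · have hne : s ≠ 1 := by
      intro h'
      rw [h'] at h3
      simp at h3
      linarith
    rw [h]
    refine (Pool.Agent.V5helper22.CR.triv_le h3 hs0.le).trans ?_
    have hA : ∀ u : ℝ, ‖((Int.fract u : ℝ) : ℂ)‖ ≤ 1 := by
      intro u
      rw [Complex.norm_real, Real.norm_eq_abs, Int.abs_fract]
      exact (Int.fract_lt_one u).le
    have h4 := H370.DL.J_bound hA hs0
    have h5 : (1 : ℝ) / s.re ≤ 2 := by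
      rw [div_le_iff₀ hs0]
      linarith
    have h6 : ‖1 / (s - 1)‖ ≤ 1 := by
      rw [norm_div, norm_one, div_le_one]
      · refine le_trans ?_ (abs_im_le_norm (s - 1))
        simp only [sub_im, one_im, sub_zero]
        exact h3
      · rw [norm_pos_iff, sub_ne_zero]
        exact hne
    have h7 : ‖s * ∫ u in Ioi (1 : ℝ), ((Int.fract u : ℝ) : ℂ) * (u : ℂ) ^ (-s - 1)‖ ≤
        (3 * |s.im|) * 2 := by
      rw [norm_mul]
      exact mul_le_mul hns (h4.trans h5) (norm_nonneg _) (by positivity)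
    have h8 : ‖riemannZeta s‖ ≤ 20 * |s.im| := by
      rw [ZU.J_a1.zf_one s hs0 hne]
      calc _ ≤ ‖1 + 1 / (s - 1)‖ + _ := norm_sub_le _ _
        _ ≤ (‖(1 : ℂ)‖ + ‖1 / (s - 1)‖) + (3 * |s.im|) * 2 := add_le_add (norm_add_le _ _) h7
        _ ≤ (1 + 1) + (3 * |s.im|) * 2 := by
            rw [norm_one]
            gcongr
        _ ≤ 20 * |s.im| := by linarith
    calc (q : ℝ) * ‖riemannZeta s‖ ≤ q * (20 * |s.im|) :=
          mul_le_mul_of_nonneg_left h8 (by positivity)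
      _ = 20 * q * |s.im| := by ring
  · have hA : ∀ u : ℝ, ‖∑ k ∈ Finset.Icc 1 ⌊u⌋₊, χ (k : ZMod q)‖ ≤ (q + 1 : ℝ) :=
      fun u => H370.DL.norm_sum_Icc_le h _
    rw [H370.DL.L_integral h hs0, norm_mul]
    have h4 := H370.DL.J_bound hA hs0
    have h5 : (q + 1 : ℝ) / s.re ≤ 4 * q := by
      rw [div_le_iff₀ hs0]
      nlinarith
    calc _ ≤ (3 * |s.im|) * (4 * q) := mul_le_mul hns (h4.trans h5) (norm_nonneg _) (by positivity)
      _ ≤ 20 * q * |s.im| := by nlinarith [abs_nonneg s.im]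

end growth

section riesz

variable {q : ℕ}

/-- the values of a character on the natural numbers -/
noncomputable def Ch (χ : DirichletCharacter ℂ q) : ℕ → ℂ := fun n => χ (n : ZMod q)

lemma Ch_norm (χ : DirichletCharacter ℂ q) (n : ℕ) : ‖Ch χ n‖ ≤ 1 := χ.norm_le_one _

/-- the smoothed sum -/
noncomputable def RS (χ : DirichletCharacter ℂ q) (τ v : ℝ) : ℂ :=
  ∑' n : ℕ, LSeries.term (Ch χ) ⟨0, τ⟩ n * ((max (v - Real.log n) 0 : ℝ) : ℂ)

lemma Ch_summable (χ : DirichletCharacter ℂ q) {s : ℂ} (hs : 1 < s.re) :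
    LSeriesSummable (Ch χ) s :=
  LSeriesSummable_of_bounded_of_one_lt_re (m := 1) (fun n _ => Ch_norm χ n) hs

theorem RS_eq (χ : DirichletCharacter ℂ q) {c : ℝ} (hc : 1 < c) (τ v : ℝ) :
    RS χ τ v = ∫ ξ : ℝ, LSeries (Ch χ) (⟨0, τ⟩ + vert c ξ) *
      (cexp (vert c ξ * v) / (vert c ξ) ^ 2) := by
  have hc0 : 0 < c := by linarith
  have ha : LSeriesSummable (Ch χ) (c : ℂ) := Ch_summable χ (by simpa using hc)
  set F : ℕ → ℝ → ℂ := fun n ξ => LSeries.term (Ch χ) (⟨0, τ⟩ + vert c ξ) n *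
    (cexp (vert c ξ * v) / (vert c ξ) ^ 2) with hF
  have hterm : ∀ n ξ, F n ξ = LSeries.term (Ch χ) ⟨0, τ⟩ n *
      (cexp (vert c ξ * ((v - Real.log n : ℝ) : ℂ)) / (vert c ξ) ^ 2) := by
    intro n ξ
    simp only [hF]
    rcases Nat.eq_zero_or_pos n with rfl | hn
    · simp
    · rw [LSeries.term_of_ne_zero hn.ne', LSeries.term_of_ne_zero hn.ne']
      have hnc : (n : ℂ) ≠ 0 := by exact_mod_cast hn.ne'
      have h1 : (n : ℂ) ^ ((⟨0, τ⟩ : ℂ) + vert c ξ) = (n : ℂ) ^ (⟨0, τ⟩ : ℂ) *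
          cexp (vert c ξ * (Real.log n : ℝ)) := by
        rw [Complex.cpow_add _ _ hnc]
        congr 1
        rw [Complex.cpow_def_of_ne_zero hnc, ← Complex.natCast_log]
        congr 1
        push_cast
        ring
      have h2 : cexp (vert c ξ * ((v - Real.log n : ℝ) : ℂ)) =
          cexp (vert c ξ * v) / cexp (vert c ξ * (Real.log n : ℝ)) := by
        rw [← Complex.exp_sub]
        congr 1
        push_cast
        ring
      rw [h1, h2]
      have h3 : (n : ℂ) ^ (⟨0, τ⟩ : ℂ) ≠ 0 := by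
        rw [Complex.cpow_def_of_ne_zero hnc]; exact Complex.exp_ne_zero _
      have h4 := Complex.exp_ne_zero (vert c ξ * (Real.log n : ℝ))
      have h5 := vert_ne_zero hc0 ξ
      field_simp
  have hnorm : ∀ n ξ, ‖F n ξ‖ = ‖LSeries.term (Ch χ) (c : ℂ) n‖ *
      (Real.exp (c * v) * (‖vert c ξ‖ ^ 2)⁻¹) := by
    intro n ξ
    simp only [hF]
    rw [norm_mul, norm_div, norm_exp_vert, norm_pow, div_eq_mul_inv]
    congr 1
    rw [LSeries.norm_term_eq, LSeries.norm_term_eq]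
    congr 2
    simp [vert_re]
  have hkint := integrable_inv_norm_vert_sq' hc0
  have hFint : ∀ n, Integrable (F n) := by
    intro n
    refine Integrable.mono' ((hkint.const_mul (Real.exp (c * v))).const_mul
      ‖LSeries.term (Ch χ) (c : ℂ) n‖) ?_ ?_
    · apply Continuous.aestronglyMeasurable
      have : F n = fun ξ => LSeries.term (Ch χ) ⟨0, τ⟩ n *
        (cexp (vert c ξ * ((v - Real.log n : ℝ) : ℂ)) / (vert c ξ) ^ 2) :=
        funext (hterm n)
      rw [this]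
      have h1 := continuous_vert c
      exact continuous_const.mul (Continuous.div (by fun_prop) (h1.pow 2)
        (fun ξ => pow_ne_zero 2 (vert_ne_zero hc0 ξ)))
    · exact Eventually.of_forall (fun ξ => (hnorm n ξ).le)
  have hFsum : Summable (fun n => ∫ ξ, ‖F n ξ‖) := by
    simp only [hnorm, integral_const_mul]
    exact ha.norm.mul_right _
  have hmain := hasSum_integral_of_summable_integral_norm hFint hFsum
  have hI : ∀ n, ∫ ξ, F n ξ =
      LSeries.term (Ch χ) ⟨0, τ⟩ n * ((max (v - Real.log n) 0 : ℝ) : ℂ) := by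
    intro n
    have h1 : ∫ ξ, F n ξ = LSeries.term (Ch χ) ⟨0, τ⟩ n *
        ∫ ξ : ℝ, (cexp (vert c ξ * ((v - Real.log n : ℝ) : ℂ)) / (vert c ξ) ^ 2) := by
      simp only [hterm]
      rw [integral_const_mul]
    rw [h1, perron_vert hc0]
  simp only [hI] at hmain
  unfold RS
  rw [hmain.tsum_eq]
  congr 1
  ext ξ
  simp only [hF]
  rw [tsum_mul_right]
  rfl

lemma norm_LSeries_le (χ : DirichletCharacter ℂ q) {w : ℂ} (hw : 1 < w.re) :
    ‖LSeries (Ch χ) w‖ ≤ 1 + 1 / (w.re - 1) := by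
  set c := w.re with hc
  have h0 := ZetaAsymptotics.zeta_limit_aux1 hw
  have h1 : ∀ n, ‖LSeries.term (Ch χ) w n‖ ≤ if n = 0 then 0 else 1 / (n : ℝ) ^ c := by
    intro n
    rw [LSeries.norm_term_eq]
    split_ifs with h
    · exact le_rfl
    · exact div_le_div_of_nonneg_right (Ch_norm χ n) (by positivity)
  have h2 : Summable (fun n : ℕ => 1 / ((n : ℝ) + 1) ^ c) := by
    have h3 := (Real.summable_one_div_nat_rpow.2 hw)
    have h4 := (summable_nat_add_iff 1).2 h3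
    simpa using h4
  have h3 : HasSum (fun n : ℕ => if n = 0 then 0 else 1 / (n : ℝ) ^ c)
      (∑' n : ℕ, 1 / ((n : ℝ) + 1) ^ c) := by
    rw [← hasSum_nat_add_iff' 1]
    simpa using h2.hasSum
  have h4 : ‖LSeries (Ch χ) w‖ ≤ ∑' n : ℕ, 1 / ((n : ℝ) + 1) ^ c := by
    unfold LSeries
    exact tsum_of_norm_bounded h3 h1
  have h5 : 0 ≤ ZetaAsymptotics.termTSum c := tsum_nonneg fun n => ZetaAsymptotics.term_nonneg _ _
  have h6 : 0 ≤ c * ZetaAsymptotics.termTSum c := by positivity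
  linarith

lemma term_Ch (χ : DirichletCharacter ℂ q) (τ : ℝ) {n : ℕ} (hn : n ≠ 0) :
    LSeries.term (Ch χ) ⟨0, τ⟩ n = χ (n : ZMod q) * nt τ n := by
  rw [LSeries.term_of_ne_zero hn]
  unfold Ch nt
  have h1 : (⟨0, τ⟩ : ℂ) = τ * Complex.I := by apply Complex.ext <;> simp
  rw [h1, div_eq_mul_inv, ← Complex.cpow_neg, neg_mul]

lemma norm_nt (τ : ℝ) {n : ℕ} (hn : n ≠ 0) : ‖nt τ n‖ = 1 := by
  unfold nt
  rw [Complex.norm_natCast_cpow_of_pos (Nat.pos_of_ne_zero hn)]
  simp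

lemma RS_fin (χ : DirichletCharacter ℂ q) (τ : ℝ) {N : ℕ} (hN : 1 ≤ N) {v : ℝ}
    (hv : v ≤ Real.log (N + 2 : ℕ)) :
    RS χ τ v = ∑ n ∈ Finset.Ioc 0 (N + 1), (χ (n : ZMod q) * nt τ n) *
      ((max (v - Real.log n) 0 : ℝ) : ℂ) := by
  unfold RS
  rw [tsum_eq_sum (s := Finset.Ioc 0 (N + 1))]
  · refine Finset.sum_congr rfl fun n hn => ?_
    rw [term_Ch χ τ (by have := (Finset.mem_Ioc.1 hn).1; omega)]
  · intro n hn
    rcases Nat.eq_zero_or_pos n with rfl | h0
    · simp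
    · have h3 : N + 2 ≤ n := by
        by_contra h
        exact hn (Finset.mem_Ioc.2 ⟨h0, by omega⟩)
      have h4 : Real.log (N + 2 : ℕ) ≤ Real.log n :=
        Real.log_le_log (by positivity) (by exact_mod_cast h3)
      rw [max_eq_right (by linarith)]
      simp

/-- `log N + 1/N ≤ log (N+2)` -/
lemma log_add_inv {N : ℕ} (hN : 1 ≤ N) :
    Real.log N + 1 / N ≤ Real.log (N + 2 : ℕ) := by
  have hN0 : (0 : ℝ) < N := by exact_mod_cast hN
  have hN1 : (1 : ℝ) ≤ N := by exact_mod_cast hN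
  have h1 : ((N + 2 : ℕ) : ℝ) = N * (1 + 2 / N) := by
    push_cast; field_simp
  rw [h1, Real.log_mul hN0.ne' (by positivity)]
  have h2 : 1 / (N : ℝ) ≤ Real.log (1 + 2 / N) := by
    rw [Real.le_log_iff_exp_le (by positivity)]
    have hx : 1 / (N : ℝ) ≤ 1 := by rw [div_le_one hN0]; exact hN1
    have hx0 : 0 ≤ 1 / (N : ℝ) := by positivity
    -- convexity: `exp x ≤ 1 + (e - 1) x` on `[0,1]`
    have h4 := convexOn_exp.2 (Set.mem_univ (0 : ℝ)) (Set.mem_univ (1 : ℝ))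
      (by linarith : 0 ≤ 1 - 1 / (N : ℝ)) hx0 (by ring)
    simp only [smul_eq_mul, mul_zero, zero_add, mul_one, Real.exp_zero] at h4
    have h5 := Real.exp_one_lt_d9
    have h6 : 2 / (N : ℝ) = 2 * (1 / N) := by ring
    rw [h6]
    nlinarith
  linarith

/-- The sum is the difference quotient of the Riesz sums, up to one term. -/
theorem unsmooth (χ : DirichletCharacter ℂ q) (τ : ℝ) {N : ℕ} (hN : 1 ≤ N) :
    ‖∑ n ∈ Finset.Ioc 0 N, χ (n : ZMod q) * nt τ n‖ ≤
      ‖(N : ℂ) * (RS χ τ (Real.log N + 1 / N) - RS χ τ (Real.log N))‖ + 1 := by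
  have hN0 : (0 : ℝ) < N := by exact_mod_cast hN
  set h : ℝ := 1 / N with hh
  have h0 : 0 < h := by positivity
  set L := Real.log N with hL
  have hlog := log_add_inv hN
  rw [← hh, ← hL] at hlog
  set φ : ℕ → ℝ := fun n => N * (max (L + h - Real.log n) 0 - max (L - Real.log n) 0) with hφ
  have hφ1 : ∀ n : ℕ, 1 ≤ n → n ≤ N → φ n = 1 := by
    intro n hn1 hn
    have hn0 : (0 : ℝ) < n := by exact_mod_cast hn1
    have h2 : Real.log n ≤ L := Real.log_le_log hn0 (by exact_mod_cast hn)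
    simp only [hφ]
    rw [max_eq_left (by linarith), max_eq_left (by linarith)]
    have : L + h - Real.log n - (L - Real.log n) = h := by ring
    rw [this, hh]
    field_simp
  have hφ2 : |φ (N + 1)| ≤ 1 := by
    have h2 : L ≤ Real.log (N + 1 : ℕ) := Real.log_le_log hN0 (by push_cast; linarith)
    simp only [hφ]
    rw [max_eq_right (by linarith : L - Real.log (N + 1 : ℕ) ≤ 0), sub_zero,
      abs_of_nonneg (mul_nonneg hN0.le (le_max_right _ _))]
    calc (N : ℝ) * max (L + h - Real.log (N + 1 : ℕ)) 0 ≤ N * h :=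
          mul_le_mul_of_nonneg_left (max_le (by linarith) h0.le) hN0.le
      _ = 1 := by rw [hh]; field_simp
  have hdiff : (N : ℂ) * (RS χ τ (L + h) - RS χ τ L) =
      ∑ n ∈ Finset.Ioc 0 (N + 1), (χ (n : ZMod q) * nt τ n) * ((φ n : ℝ) : ℂ) := by
    rw [RS_fin χ τ hN hlog, RS_fin χ τ hN (by linarith), ← Finset.sum_sub_distrib, Finset.mul_sum]
    refine Finset.sum_congr rfl fun n _ => ?_
    simp only [hφ]
    push_cast
    ring
  have hsplit : Finset.Ioc 0 (N + 1) = insert (N + 1) (Finset.Ioc 0 N) := by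
    ext n
    simp only [Finset.mem_Ioc, Finset.mem_insert]
    omega
  rw [hsplit, Finset.sum_insert (by simp)] at hdiff
  have hmain : ∑ n ∈ Finset.Ioc 0 N, (χ (n : ZMod q) * nt τ n) * ((φ n : ℝ) : ℂ) =
      ∑ n ∈ Finset.Ioc 0 N, χ (n : ZMod q) * nt τ n := by
    refine Finset.sum_congr rfl fun n hn => ?_
    rw [Finset.mem_Ioc] at hn
    rw [hφ1 n hn.1 hn.2]; simp
  rw [hmain] at hdiff
  have h3 : ∑ n ∈ Finset.Ioc 0 N, χ (n : ZMod q) * nt τ n =
      (N : ℂ) * (RS χ τ (L + h) - RS χ τ L) -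
      (χ ((N + 1 : ℕ) : ZMod q) * nt τ (N + 1)) * ((φ (N + 1) : ℝ) : ℂ) := by
    rw [hdiff]; ring
  rw [h3]
  refine (norm_sub_le _ _).trans (add_le_add le_rfl ?_)
  rw [norm_mul, norm_mul, norm_nt τ (by omega), Complex.norm_real, Real.norm_eq_abs, mul_one]
  exact mul_le_one₀ (χ.norm_le_one _) (abs_nonneg _) hφ2

end riesz

end Pool.Agent.V5helper81.CR6
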