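import Pool.Agent.V5helper81.CR6.FMBa

/-!
# Project CR6, job FMB, part 2: the contour shift
-/

set_option autoImplicit false

open Complex Filter Topology Set MeasureTheory Metric
open scoped Real

namespace Pool.Agent.V5helper81.CR6

open Pool.Agent.H379R2.SW (vert vert_re vert_im vert_ne_zero continuous_vert)
open Pool.Agent.W66 (exp_vert integrable_inv_norm_vert_sq' perron_vert)
open Pool.Agent.Y25.VK (norm_exp_vert tail_arctan)
open Pool.Agent.Q236.CR (nt)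

/-- shifting a vertical segment -/
theorem rect_shift {G : ℂ → ℂ} {b c y1 y2 : ℝ} (hbc : b ≤ c) (hy : y1 ≤ y2)
    (hG : ∀ s : ℂ, b ≤ s.re → s.re ≤ c → y1 ≤ s.im → s.im ≤ y2 → DifferentiableAt ℂ G s) :
    ‖∫ y : ℝ in y1..y2, G ((c : ℂ) + y * I)‖ ≤ ‖∫ y : ℝ in y1..y2, G ((b : ℂ) + y * I)‖ +
      ‖∫ x : ℝ in b..c, G ((x : ℂ) + y1 * I)‖ + ‖∫ x : ℝ in b..c, G ((x : ℂ) + y2 * I)‖ := by
  have hcauchy := Complex.integral_boundary_rect_eq_zero_of_differentiableOn G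
    (⟨b, y1⟩ : ℂ) (⟨c, y2⟩ : ℂ) (by
      intro s hs
      rw [Complex.mem_reProdIm] at hs
      simp only at hs
      rw [uIcc_of_le hbc, uIcc_of_le hy] at hs
      exact (hG s hs.1.1 hs.1.2 hs.2.1 hs.2.2).differentiableWithinAt)
  simp only at hcauchy
  have h1 : I • ∫ y : ℝ in y1..y2, G ((c : ℂ) + y * I) =
      I • (∫ y : ℝ in y1..y2, G ((b : ℂ) + y * I)) -
      (∫ x : ℝ in b..c, G ((x : ℂ) + y1 * I)) +
      ∫ x : ℝ in b..c, G ((x : ℂ) + y2 * I) := by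
    linear_combination hcauchy
  have h2 : ‖∫ y : ℝ in y1..y2, G ((c : ℂ) + y * I)‖ =
      ‖I • ∫ y : ℝ in y1..y2, G ((c : ℂ) + y * I)‖ := by
    rw [norm_smul, Complex.norm_I, one_mul]
  rw [h2, h1]
  refine (norm_add_le _ _).trans ?_
  have h3 := norm_sub_le (I • (∫ y : ℝ in y1..y2, G ((b : ℂ) + y * I)))
    (∫ x : ℝ in b..c, G ((x : ℂ) + y1 * I))
  rw [norm_smul, Complex.norm_I, one_mul] at h3
  linarith

lemma norm_exp_sub_one {z : ℂ} (hz : 0 ≤ z.re) : ‖cexp z - 1‖ ≤ ‖z‖ * Real.exp z.re := by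
  have h1 : ∀ t ∈ Icc (0 : ℝ) 1, HasDerivWithinAt (fun t : ℝ => cexp (t * z)) (cexp (t * z) * z)
      (Icc 0 1) t := by
    intro t _
    have h2 : HasDerivAt (fun t : ℝ => (t : ℂ) * z) z t := by
      simpa using (Complex.ofRealCLM.hasDerivAt (x := t)).mul_const z
    exact (h2.cexp).hasDerivWithinAt
  have h2 := norm_image_sub_le_of_norm_deriv_le_segment_01' (f := fun t : ℝ => cexp (t * z))
    (f' := fun t : ℝ => cexp (t * z) * z) (C := ‖z‖ * Real.exp z.re) h1 (by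
      intro t ht
      rw [norm_mul, Complex.norm_exp, Complex.re_ofReal_mul, mul_comm]
      apply mul_le_mul_of_nonneg_left _ (norm_nonneg _)
      apply Real.exp_le_exp.2
      have := ht.2.le
      nlinarith [ht.1])
  simpa using h2

/-- the kernel -/
noncomputable def KK (N : ℕ) (s : ℂ) : ℂ :=
  N * ((cexp (s * ((Real.log N + 1 / N : ℝ) : ℂ)) - cexp (s * ((Real.log N : ℝ) : ℂ))) / s ^ 2)

lemma KK_le1 {N : ℕ} (hN : 1 ≤ N) {s : ℂ} (hs : 0 ≤ s.re) (hs0 : s ≠ 0) :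
    ‖KK N s‖ ≤ Real.exp (s.re * (Real.log N + 1 / N)) / ‖s‖ := by
  have hN0 : (0 : ℝ) < N := by exact_mod_cast hN
  have hns : 0 < ‖s‖ := norm_pos_iff.2 hs0
  have h1 : cexp (s * ((Real.log N + 1 / N : ℝ) : ℂ)) - cexp (s * ((Real.log N : ℝ) : ℂ)) =
      cexp (s * ((Real.log N : ℝ) : ℂ)) * (cexp (s * ((1 / N : ℝ) : ℂ)) - 1) := by
    rw [mul_sub, ← Complex.exp_add, mul_one]
    congr 2
    push_cast; ring
  have h2 := norm_exp_sub_one (z := s * ((1 / N : ℝ) : ℂ)) (by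
    rw [Complex.re_mul_ofReal]; positivity)
  rw [Complex.re_mul_ofReal, norm_mul, Complex.norm_real, Real.norm_of_nonneg (by positivity)] at h2
  unfold KK
  rw [norm_mul, norm_div, h1, norm_mul, Complex.norm_exp, Complex.re_mul_ofReal, norm_pow,
    Complex.norm_natCast]
  have h3 : Real.exp (s.re * (Real.log N + 1 / N)) =
      Real.exp (s.re * Real.log N) * Real.exp (s.re * (1 / N)) := by
    rw [← Real.exp_add]; congr 1; ring
  rw [h3, ← mul_div_assoc, div_le_div_iff₀ (by positivity) hns]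
  calc (N : ℝ) * (Real.exp (s.re * Real.log N) * ‖cexp (s * ((1 / N : ℝ) : ℂ)) - 1‖) * ‖s‖
      ≤ (N : ℝ) * (Real.exp (s.re * Real.log N) * (‖s‖ * (1 / N) * Real.exp (s.re * (1 / N)))) *
        ‖s‖ := by gcongr
    _ = _ := by field_simp

lemma KK_le2 {N : ℕ} (hN : 1 ≤ N) {s : ℂ} (hs : 0 ≤ s.re) (hs0 : s ≠ 0) :
    ‖KK N s‖ ≤ 2 * N * Real.exp (s.re * (Real.log N + 1 / N)) / ‖s‖ ^ 2 := by
  have hN0 : (0 : ℝ) < N := by exact_mod_cast hN
  have hns : 0 < ‖s‖ := norm_pos_iff.2 hs0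
  unfold KK
  rw [norm_mul, norm_div, norm_pow, Complex.norm_natCast, ← mul_div_assoc]
  apply div_le_div_of_nonneg_right _ (by positivity)
  have h1 := norm_sub_le (cexp (s * ((Real.log N + 1 / N : ℝ) : ℂ)))
    (cexp (s * ((Real.log N : ℝ) : ℂ)))
  rw [Complex.norm_exp, Complex.norm_exp, Complex.re_mul_ofReal, Complex.re_mul_ofReal] at h1
  have h2 : Real.exp (s.re * Real.log N) ≤ Real.exp (s.re * (Real.log N + 1 / N)) := by
    apply Real.exp_le_exp.2
    apply mul_le_mul_of_nonneg_left _ hs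
    have : 0 ≤ 1 / (N : ℝ) := by positivity
    linarith
  nlinarith

section shift

variable {q : ℕ} [NeZero q]

lemma diff_L (χ : DirichletCharacter ℂ q) (τ : ℝ) {s : ℂ} (hs1 : (⟨0, τ⟩ : ℂ) + s ≠ 1) :
    DifferentiableAt ℂ (fun z : ℂ => DirichletCharacter.LFunction χ ((⟨0, τ⟩ : ℂ) + z)) s := by
  have h2 : DifferentiableAt ℂ (fun z : ℂ => (⟨0, τ⟩ : ℂ) + z) s := by fun_prop
  exact DifferentiableAt.comp (g := DirichletCharacter.LFunction χ)
    (f := fun z : ℂ => (⟨0, τ⟩ : ℂ) + z) s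
    (DirichletCharacter.differentiableAt_LFunction χ _ (Or.inl hs1)) h2

/-- the integrand of the Riesz sum -/
noncomputable def GR (χ : DirichletCharacter ℂ q) (τ u : ℝ) (s : ℂ) : ℂ :=
  DirichletCharacter.LFunction χ (⟨0, τ⟩ + s) * (cexp (s * u) / s ^ 2)

lemma GR_le (χ : DirichletCharacter ℂ q) (τ u : ℝ) {c : ℝ} (hc : 1 < c) (t : ℝ) :
    ‖GR χ τ u (c + t * I)‖ ≤ (1 + 1 / (c - 1)) * Real.exp (c * u) * (1 + t ^ 2)⁻¹ := by
  have hre : ((⟨0, τ⟩ : ℂ) + (c + t * I)).re = c := by simp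
  have hre2 : ((c : ℂ) + t * I).re = c := by simp
  have him2 : ((c : ℂ) + t * I).im = t := by simp
  have h0 : 1 < ((⟨0, τ⟩ : ℂ) + (c + t * I)).re := by rw [hre]; exact hc
  have h1 := norm_LSeries_le χ h0
  rw [hre] at h1
  have h1' : LSeries (Ch χ) ((⟨0, τ⟩ : ℂ) + (c + t * I)) =
      DirichletCharacter.LFunction χ ((⟨0, τ⟩ : ℂ) + (c + t * I)) :=
    (DirichletCharacter.LFunction_eq_LSeries χ h0).symm
  rw [h1'] at h1
  unfold GR
  rw [norm_mul, norm_div, Complex.norm_exp, Complex.re_mul_ofReal, hre2]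
  have h3 : 1 + t ^ 2 ≤ ‖((c : ℂ) + t * I) ^ 2‖ := by
    rw [norm_pow, Complex.sq_norm, Complex.normSq_apply, hre2, him2]
    nlinarith
  have h4 : 0 < 1 + t ^ 2 := by positivity
  have h5 : 0 < c - 1 := by linarith
  calc _ ≤ (1 + 1 / (c - 1)) * (Real.exp (c * u) / (1 + t ^ 2)) :=
        mul_le_mul h1 (div_le_div_of_nonneg_left (by positivity) h4 h3) (by positivity)
          (by positivity)
    _ = _ := by rw [div_eq_mul_inv]; ring

lemma GR_cont (χ : DirichletCharacter ℂ q) (τ u : ℝ) {c : ℝ} (hc0 : 0 < c) (hc1 : c ≠ 1) :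
    Continuous fun t : ℝ => GR χ τ u (c + t * I) := by
  rw [continuous_iff_continuousAt]
  intro t
  have hre2 : ((c : ℂ) + t * I).re = c := by simp
  have hre : ((⟨0, τ⟩ : ℂ) + (c + t * I)).re = c := by simp
  have h1' : (⟨0, τ⟩ : ℂ) + (c + t * I) ≠ 1 := by
    intro h
    rw [h] at hre
    simp at hre
    exact hc1 hre.symm
  have h2 : ContinuousAt (fun t : ℝ => (c : ℂ) + t * I) t := by fun_prop
  have h3 : (c : ℂ) + t * I ≠ 0 := by
    intro h
    rw [h] at hre2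
    simp at hre2
    linarith
  have h4 : DifferentiableAt ℂ (GR χ τ u) (c + t * I) := by
    unfold GR
    exact (diff_L χ τ h1').mul (DifferentiableAt.div (by fun_prop) (by fun_prop) (pow_ne_zero 2 h3))
  exact ContinuousAt.comp (g := GR χ τ u) (f := fun t : ℝ => (c : ℂ) + t * I) h4.continuousAt h2

lemma GR_int (χ : DirichletCharacter ℂ q) (τ u : ℝ) {c : ℝ} (hc : 1 < c) :
    Integrable fun t : ℝ => GR χ τ u (c + t * I) :=
  (integrable_inv_one_add_sq.const_mul _).mono'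
    (GR_cont χ τ u (by linarith) hc.ne').aestronglyMeasurable
    (Eventually.of_forall (GR_le χ τ u hc))

lemma RS_line (χ : DirichletCharacter ℂ q) (τ u : ℝ) {c : ℝ} (hc : 1 < c) :
    RS χ τ u = ((2 * π)⁻¹ : ℝ) • ∫ t : ℝ, GR χ τ u (c + t * I) := by
  rw [RS_eq χ hc]
  have h1 : ∀ ξ : ℝ, LSeries (Ch χ) (⟨0, τ⟩ + vert c ξ) *
      (cexp (vert c ξ * u) / (vert c ξ) ^ 2) =
      (fun t : ℝ => GR χ τ u (c + t * I)) (2 * π * ξ) := by
    intro ξ
    have h1' : LSeries (Ch χ) (⟨0, τ⟩ + vert c ξ) =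
        DirichletCharacter.LFunction χ (⟨0, τ⟩ + vert c ξ) :=
      (DirichletCharacter.LFunction_eq_LSeries χ (by simp [vert_re]; exact hc)).symm
    rw [h1']
    simp only [GR, vert]
  simp only [h1]
  rw [MeasureTheory.Measure.integral_comp_mul_left (fun t : ℝ => GR χ τ u (c + t * I)) (2 * π),
    abs_of_pos (by positivity)]

/-- the integrand -/
noncomputable def GG (χ : DirichletCharacter ℂ q) (τ : ℝ) (N : ℕ) (s : ℂ) : ℂ :=
  DirichletCharacter.LFunction χ (⟨0, τ⟩ + s) * KK N s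

lemma GG_eq (χ : DirichletCharacter ℂ q) (τ : ℝ) (N : ℕ) (s : ℂ) :
    GG χ τ N s = N * (GR χ τ (Real.log N + 1 / N) s - GR χ τ (Real.log N) s) := by
  unfold GG KK GR
  ring

lemma GG_diff (χ : DirichletCharacter ℂ q) (τ : ℝ) (N : ℕ) {s : ℂ}
    (hs1 : (⟨0, τ⟩ : ℂ) + s ≠ 1) (hs0 : s ≠ 0) : DifferentiableAt ℂ (GG χ τ N) s := by
  have h : DifferentiableAt ℂ (fun s : ℂ => (cexp (s * ((Real.log N + 1 / N : ℝ) : ℂ)) -
      cexp (s * ((Real.log N : ℝ) : ℂ))) / s ^ 2) s :=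
    DifferentiableAt.div (by fun_prop) (by fun_prop) (pow_ne_zero 2 hs0)
  unfold GG KK
  exact (diff_L χ τ hs1).mul (h.const_mul _)

lemma GG_line (χ : DirichletCharacter ℂ q) (τ : ℝ) (N : ℕ) {c : ℝ} (hc : 1 < c) :
    (N : ℂ) * (RS χ τ (Real.log N + 1 / N) - RS χ τ (Real.log N)) =
      ((2 * π)⁻¹ : ℝ) • ∫ t : ℝ, GG χ τ N (c + t * I) := by
  simp only [GG_eq]
  rw [integral_const_mul, integral_sub (GR_int χ τ _ hc) (GR_int χ τ _ hc), RS_line χ τ _ hc,
    RS_line χ τ _ hc, ← smul_sub, mul_smul_comm]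

lemma GG_int (χ : DirichletCharacter ℂ q) (τ : ℝ) (N : ℕ) {c : ℝ} (hc : 1 < c) :
    Integrable fun t : ℝ => GG χ τ N (c + t * I) := by
  simp only [GG_eq]
  exact ((GR_int χ τ _ hc).sub (GR_int χ τ _ hc)).const_mul _

/-- `|L(1/2 + κ + it, χ)|` -/
noncomputable def Lb (χ : DirichletCharacter ℂ q) (κ t : ℝ) : ℝ :=
  ‖DirichletCharacter.LFunction χ (⟨1 / 2 + κ, t⟩ : ℂ)‖

lemma Lb_cont (χ : DirichletCharacter ℂ q) {κ : ℝ} (hκ : κ ≤ 1 / 4) : Continuous (Lb χ κ) := by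
  unfold Lb
  refine Continuous.norm ?_
  rw [continuous_iff_continuousAt]
  intro t
  have h0 : (fun t : ℝ => (⟨1 / 2 + κ, t⟩ : ℂ)) = fun t : ℝ => ((1 / 2 + κ : ℝ) : ℂ) + t * I := by
    funext t
    apply Complex.ext <;> simp
  have h2 : ContinuousAt (fun t : ℝ => (⟨1 / 2 + κ, t⟩ : ℂ)) t := by
    rw [h0]; fun_prop
  have h1 : (⟨1 / 2 + κ, t⟩ : ℂ) ≠ 1 := by
    intro h
    have := congrArg Complex.re h
    simp at this
    linarith
  exact ContinuousAt.comp (g := DirichletCharacter.LFunction χ)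
    (f := fun t : ℝ => (⟨1 / 2 + κ, t⟩ : ℂ))
    (DirichletCharacter.differentiableAt_LFunction χ _ (Or.inl h1)).continuousAt h2

/-- the kernel on the left line -/
lemma left_le (χ : DirichletCharacter ℂ q) {N : ℕ} (hN : 1 ≤ N) {τ κ : ℝ} (hκ0 : 0 < κ)
    (hκ1 : κ ≤ 1 / 4) (hκ2 : κ * Real.log N ≤ 2) (y : ℝ) :
    ‖GG χ τ N (((1 / 2 + κ : ℝ) : ℂ) + y * I)‖ ≤
      90 * Real.sqrt N * ((1 + |y|)⁻¹ * Lb χ κ (τ + y)) := by
  have hN0 : (0 : ℝ) < N := by exact_mod_cast hN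
  have hN1 : (1 : ℝ) ≤ N := by exact_mod_cast hN
  set b : ℝ := 1 / 2 + κ with hb
  have hre : ((b : ℂ) + y * I).re = b := by simp
  have him : ((b : ℂ) + y * I).im = y := by simp
  have hne : (b : ℂ) + y * I ≠ 0 := by
    intro h
    rw [h] at hre
    simp at hre
    linarith
  have h1 : (⟨0, τ⟩ : ℂ) + ((b : ℂ) + y * I) = ⟨1 / 2 + κ, τ + y⟩ := by
    apply Complex.ext <;> simp [hb]
  have h2 := KK_le1 hN (s := (b : ℂ) + y * I) (by rw [hre]; linarith) hne
  rw [hre] at h2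
  have h3 : Real.exp (b * (Real.log N + 1 / N)) ≤ 27 * Real.sqrt N := by
    have e1 : b * (Real.log N + 1 / N) ≤ (2 + 1) + Real.log N / 2 := by
      have : b * (1 / (N : ℝ)) ≤ 1 := by
        have h5 : 1 / (N : ℝ) ≤ 1 := by rw [div_le_one hN0]; exact hN1
        have h6 : 0 ≤ 1 / (N : ℝ) := by positivity
        nlinarith
      rw [hb]
      rw [hb] at this
      nlinarith
    refine (Real.exp_le_exp.2 e1).trans ?_
    rw [Real.exp_add]
    have e2 : Real.exp (Real.log N / 2) = Real.sqrt N := by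
      rw [Real.sqrt_eq_rpow, Real.rpow_def_of_pos hN0]
      congr 1; ring
    rw [e2]
    apply mul_le_mul_of_nonneg_right _ (Real.sqrt_nonneg _)
    have e3 : Real.exp (2 + 1) = Real.exp 1 * Real.exp 1 * Real.exp 1 := by
      rw [← Real.exp_add, ← Real.exp_add]; norm_num
    rw [e3]
    have e4 : Real.exp 1 ≤ 3 := by linarith [Real.exp_one_lt_d9]
    have e5 := Real.exp_pos 1
    calc Real.exp 1 * Real.exp 1 * Real.exp 1 ≤ 3 * 3 * 3 := by gcongr
      _ = 27 := by norm_num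
  have h4 : (1 + |y|) / 3 ≤ ‖(b : ℂ) + y * I‖ := by
    have h5 : ((1 + |y|) / 3) ^ 2 ≤ ‖(b : ℂ) + y * I‖ ^ 2 := by
      rw [Complex.sq_norm, Complex.normSq_apply, hre, him]
      have h6 : |y| ^ 2 = y ^ 2 := sq_abs y
      nlinarith [sq_nonneg (|y| - 1), abs_nonneg y]
    exact le_of_sq_le_sq h5 (norm_nonneg _)
  have hy : 0 < 1 + |y| := by positivity
  unfold GG
  rw [norm_mul, h1]
  have h5 : ‖KK N ((b : ℂ) + y * I)‖ ≤ 90 * Real.sqrt N * (1 + |y|)⁻¹ := by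
    refine h2.trans ?_
    calc Real.exp (b * (Real.log N + 1 / N)) / ‖(b : ℂ) + y * I‖ ≤
        27 * Real.sqrt N / ((1 + |y|) / 3) := div_le_div₀ (by positivity) h3 (by positivity) h4
      _ = 81 * Real.sqrt N * (1 + |y|)⁻¹ := by field_simp; ring
      _ ≤ 90 * Real.sqrt N * (1 + |y|)⁻¹ := by gcongr; norm_num
  calc ‖DirichletCharacter.LFunction χ (⟨1 / 2 + κ, τ + y⟩ : ℂ)‖ * ‖KK N ((b : ℂ) + y * I)‖ ≤
      ‖DirichletCharacter.LFunction χ (⟨1 / 2 + κ, τ + y⟩ : ℂ)‖ *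
        (90 * Real.sqrt N * (1 + |y|)⁻¹) := mul_le_mul_of_nonneg_left h5 (norm_nonneg _)
    _ = _ := by unfold Lb; ring

lemma left_int (χ : DirichletCharacter ℂ q) {N : ℕ} (hN : 1 ≤ N) {τ κ : ℝ} (hκ0 : 0 < κ)
    (hκ1 : κ ≤ 1 / 4) (hκ2 : κ * Real.log N ≤ 2) {y1 y2 : ℝ} (hy : y1 ≤ y2) :
    ‖∫ y : ℝ in y1..y2, GG χ τ N (((1 / 2 + κ : ℝ) : ℂ) + y * I)‖ ≤
      90 * Real.sqrt N * ∫ y in y1..y2, (1 + |y|)⁻¹ * Lb χ κ (τ + y) := by
  have hcont : Continuous fun y : ℝ => (1 + |y|)⁻¹ * Lb χ κ (τ + y) := by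
    have h1 := Lb_cont χ hκ1
    have h2 : Continuous fun y : ℝ => (1 + |y|)⁻¹ := by
      refine Continuous.inv₀ (by fun_prop) fun y => ?_
      positivity
    exact h2.mul (h1.comp (by fun_prop))
  have h2 := intervalIntegral.norm_integral_le_of_norm_le (μ := volume) (a := y1) (b := y2)
    (f := fun y : ℝ => GG χ τ N (((1 / 2 + κ : ℝ) : ℂ) + y * I))
    (g := fun y => 90 * Real.sqrt N * ((1 + |y|)⁻¹ * Lb χ κ (τ + y)))
    hy (Eventually.of_forall fun y _ => left_le χ hN hκ0 hκ1 hκ2 y)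
    ((hcont.const_mul _).intervalIntegrable _ _)
  rwa [intervalIntegral.integral_const_mul] at h2

/-- all the estimates together -/
theorem pointwise (χ : DirichletCharacter ℂ q) {N : ℕ} (hN : 1 ≤ N) {T τ κ : ℝ} (hT : 3 ≤ T)
    (hN2 : (N : ℝ) ≤ 2 * T ^ 2) (hτ1 : T ≤ |τ|) (hτ2 : |τ| ≤ 2 * T) (hκ0 : 0 < κ) (hκ1 : κ ≤ 1 / 4)
    (hκ2 : κ * Real.log N ≤ 2) :
    ‖∑ n ∈ Finset.Ioc 0 N, χ (n : ZMod q) * nt τ n‖ ≤ 10 ^ 5 * Real.sqrt N *
      (q * (2 + Real.log N) + ∫ y in (-(T ^ 6))..(T ^ 6), (1 + |y|)⁻¹ * Lb χ κ (τ + y)) := by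
  have hN0 : (0 : ℝ) < N := by exact_mod_cast hN
  have hN1 : (1 : ℝ) ≤ N := by exact_mod_cast hN
  have hq : (1 : ℝ) ≤ q := by exact_mod_cast NeZero.one_le
  set R : ℝ := T ^ 6 with hR
  set v : ℝ := Real.log N with hv
  have hv0 : 0 ≤ v := Real.log_nonneg hN1
  have hvN : v + 2 ≤ 2 * N := by
    have := Real.log_le_sub_one_of_pos hN0
    linarith
  set b : ℝ := 1 / 2 + κ with hb
  set c : ℝ := 1 + 1 / (v + 1) with hc
  have hiv : 0 < 1 / (v + 1) := by positivity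
  have hiv1 : 1 / (v + 1) ≤ 1 := by rw [div_le_one (by positivity)]; linarith
  have hc1 : 1 < c := by linarith
  have hc2 : c ≤ 2 := by linarith
  have hcinv : 1 + 1 / (c - 1) = v + 2 := by
    have : c - 1 = 1 / (v + 1) := by rw [hc]; ring
    rw [this, one_div_one_div]; ring
  have hbc : b ≤ c := by linarith
  have hRT : 2 * T + 1 ≤ R := by
    have h1 : T ^ 2 ≤ T ^ 6 := pow_le_pow_right₀ (by linarith) (by norm_num)
    nlinarith
  have hR1 : 1 ≤ R := by linarith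
  have hR0 : 0 < R := by linarith
  have he3 : Real.exp 1 ≤ 3 := by linarith [Real.exp_one_lt_d9]
  -- the size of the exponential
  have hexp : ∀ σ : ℝ, 0 ≤ σ → σ ≤ c → Real.exp (σ * (v + 1 / N)) ≤ 27 * N := by
    intro σ h1 h2
    have hNi : 1 / (N : ℝ) ≤ 1 := by rw [div_le_one hN0]; exact hN1
    have hNi0 : 0 ≤ 1 / (N : ℝ) := by positivity
    have h3 : σ * (v + 1 / N) ≤ v + 3 := by
      have h4 : σ * (v + 1 / N) ≤ c * (v + 1 / N) := by gcongr
      have h5 : c * v ≤ v + 1 := by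
        have : c * v = v + v / (v + 1) := by rw [hc]; field_simp
        rw [this]
        have : v / (v + 1) ≤ 1 := by rw [div_le_one (by positivity)]; linarith
        linarith
      have h6 : c * (1 / N) ≤ 2 := by nlinarith
      nlinarith
    refine (Real.exp_le_exp.2 h3).trans ?_
    rw [Real.exp_add, hv, Real.exp_log hN0]
    have e3 : Real.exp 3 = Real.exp 1 * Real.exp 1 * Real.exp 1 := by
      rw [← Real.exp_add, ← Real.exp_add]; norm_num
    have e5 := Real.exp_pos 1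
    have e6 : Real.exp 3 ≤ 27 := by
      rw [e3]
      calc Real.exp 1 * Real.exp 1 * Real.exp 1 ≤ 3 * 3 * 3 := by gcongr
        _ = 27 := by norm_num
    nlinarith
  have hT0 : 0 < T := by linarith
  have hsq : (N : ℝ) / T ≤ 2 * Real.sqrt N := by
    rw [div_le_iff₀ hT0]
    have h1 : Real.sqrt N ≤ 2 * T := by
      rw [Real.sqrt_le_left (by positivity)]
      nlinarith
    calc (N : ℝ) = Real.sqrt N * Real.sqrt N := (Real.mul_self_sqrt hN0.le).symm
      _ ≤ Real.sqrt N * (2 * T) := mul_le_mul_of_nonneg_left h1 (Real.sqrt_nonneg _)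
      _ = _ := by ring
  have hsq1 : 1 ≤ Real.sqrt N := by rw [Real.one_le_sqrt]; exact hN1
  -- horizontal segments
  have hhor : ∀ y B : ℝ, 1 ≤ |τ + y| → (∀ s : ℂ, b ≤ s.re → s.re ≤ c → s.im = y →
      ‖KK N s‖ ≤ B) → ‖∫ x : ℝ in b..c, GG χ τ N ((x : ℂ) + y * I)‖ ≤ 40 * q * |τ + y| * B := by
    intro y B h1 h2
    have hB : 0 ≤ B := (norm_nonneg _).trans (h2 ⟨b, y⟩ le_rfl hbc rfl)
    have h3 : ∀ x ∈ Set.uIoc b c, ‖GG χ τ N ((x : ℂ) + y * I)‖ ≤ 20 * q * |τ + y| * B := by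
      intro x hx
      rw [uIoc_of_le hbc] at hx
      have hre : ((x : ℂ) + y * I).re = x := by simp
      have him : ((x : ℂ) + y * I).im = y := by simp
      have hre2 : ((⟨0, τ⟩ : ℂ) + ((x : ℂ) + y * I)).re = x := by simp
      have him2 : ((⟨0, τ⟩ : ℂ) + ((x : ℂ) + y * I)).im = τ + y := by simp
      have h4 := norm_L_le χ (s := (⟨0, τ⟩ : ℂ) + ((x : ℂ) + y * I))
        (by rw [hre2]; linarith [hx.1]) (by rw [hre2]; linarith [hx.2]) (by rw [him2]; exact h1)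
      rw [him2] at h4
      unfold GG
      rw [norm_mul]
      exact mul_le_mul h4 (h2 _ (by rw [hre]; exact hx.1.le) (by rw [hre]; exact hx.2) him)
        (norm_nonneg _) (by positivity)
    refine (intervalIntegral.norm_integral_le_of_norm_le_const h3).trans ?_
    have h5 : |c - b| ≤ 2 := by
      rw [abs_of_nonneg (by linarith)]
      linarith
    calc 20 * q * |τ + y| * B * |c - b| ≤ 20 * q * |τ + y| * B * 2 := by gcongr
      _ = _ := by ring
  -- horizontal segments at the heights `± R`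
  have hfar : ∀ y : ℝ, |y| = R → ‖∫ x : ℝ in b..c, GG χ τ N ((x : ℂ) + y * I)‖ ≤
      17280 * q * Real.sqrt N := by
    intro y hy
    have hy1 : 1 ≤ |τ + y| := by
      have h4 := abs_sub_abs_le_abs_sub y (-τ)
      rw [abs_neg, sub_neg_eq_add, add_comm y τ] at h4
      linarith
    have hy2 : |τ + y| ≤ 2 * R := (abs_add_le _ _).trans (by linarith)
    have h1 := hhor y (54 * (N : ℝ) ^ 2 / R ^ 2) hy1 (by
      intro s hs1 hs2 hs3
      have hs0 : s ≠ 0 := by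
        intro h
        rw [h] at hs1
        simp at hs1
        linarith
      refine (KK_le2 hN (by linarith) hs0).trans ?_
      have hns : R ≤ ‖s‖ := by
        rw [← hy, ← hs3]
        exact abs_im_le_norm s
      have h2 := hexp s.re (by linarith) hs2
      calc 2 * (N : ℝ) * Real.exp (s.re * (Real.log N + 1 / N)) / ‖s‖ ^ 2 ≤
          2 * (N : ℝ) * (27 * N) / R ^ 2 := by
            apply div_le_div₀ (by positivity) (by gcongr) (by positivity)
            exact pow_le_pow_left₀ hR0.le hns 2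
        _ = _ := by ring)
    refine h1.trans ?_
    have h3 : (N : ℝ) ^ 2 ≤ 4 * R := by
      have h4 : (N : ℝ) ^ 2 ≤ (2 * T ^ 2) ^ 2 := pow_le_pow_left₀ hN0.le hN2 2
      have h5 : T ^ 4 ≤ T ^ 6 := pow_le_pow_right₀ (by linarith) (by norm_num)
      calc (N : ℝ) ^ 2 ≤ (2 * T ^ 2) ^ 2 := h4
        _ = 4 * T ^ 4 := by ring
        _ ≤ 4 * R := by rw [hR]; linarith
    calc 40 * (q : ℝ) * |τ + y| * (54 * (N : ℝ) ^ 2 / R ^ 2) ≤
        40 * (q : ℝ) * (2 * R) * (54 * (4 * R) / R ^ 2) := by gcongr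
      _ = 17280 * (q : ℝ) * 1 := by field_simp; ring
      _ ≤ 17280 * (q : ℝ) * Real.sqrt N := by gcongr
  -- the pole
  have hKnear : ∀ s : ℂ, b ≤ s.re → s.re ≤ c → |τ + s.im| ≤ 1 → ‖KK N s‖ ≤ 81 * Real.sqrt N := by
    intro s hs1 hs2 hs3
    have hs0 : s ≠ 0 := by
      intro h
      rw [h] at hs1
      simp at hs1
      linarith
    refine (KK_le1 hN (by linarith) hs0).trans ?_
    have hns : 2 * T / 3 ≤ ‖s‖ := by
      refine le_trans ?_ (abs_im_le_norm s)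
      have h4 := abs_sub_abs_le_abs_sub τ (-s.im)
      rw [abs_neg, sub_neg_eq_add] at h4
      linarith
    have h2 := hexp s.re (by linarith) hs2
    calc Real.exp (s.re * (Real.log N + 1 / N)) / ‖s‖ ≤ 27 * N / (2 * T / 3) :=
          div_le_div₀ (by positivity) h2 (by positivity) hns
      _ = 81 / 2 * (N / T) := by field_simp; ring
      _ ≤ 81 / 2 * (2 * Real.sqrt N) := by gcongr
      _ = _ := by ring
  have hnear : ∀ y : ℝ, |τ + y| = 1 → ‖∫ x : ℝ in b..c, GG χ τ N ((x : ℂ) + y * I)‖ ≤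
      3240 * q * Real.sqrt N := by
    intro y hy
    have h1 := hhor y (81 * Real.sqrt N) hy.ge (fun s h1 h2 h3 => hKnear s h1 h2 (by
      rw [h3]; exact hy.le))
    rw [hy] at h1
    linarith
  have hmid : ‖∫ y : ℝ in (-τ - 1)..(-τ + 1), GG χ τ N ((c : ℂ) + y * I)‖ ≤
      162 * (v + 2) * Real.sqrt N := by
    have h3 : ∀ y ∈ Set.uIoc (-τ - 1) (-τ + 1), ‖GG χ τ N ((c : ℂ) + y * I)‖ ≤
        (v + 2) * (81 * Real.sqrt N) := by
      intro y hy
      rw [uIoc_of_le (by linarith)] at hy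
      have hre : ((c : ℂ) + y * I).re = c := by simp
      have him : ((c : ℂ) + y * I).im = y := by simp
      have hre2 : ((⟨0, τ⟩ : ℂ) + ((c : ℂ) + y * I)).re = c := by simp
      have h0 : 1 < ((⟨0, τ⟩ : ℂ) + ((c : ℂ) + y * I)).re := by rw [hre2]; exact hc1
      have h1 := norm_LSeries_le χ h0
      have h1' : LSeries (Ch χ) ((⟨0, τ⟩ : ℂ) + (c + y * I)) =
          DirichletCharacter.LFunction χ ((⟨0, τ⟩ : ℂ) + (c + y * I)) :=
        (DirichletCharacter.LFunction_eq_LSeries χ h0).symm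
      rw [h1', hre2, hcinv] at h1
      unfold GG
      rw [norm_mul]
      refine mul_le_mul h1 (hKnear _ (by rw [hre]; exact hbc) (by rw [hre]) ?_) (norm_nonneg _)
        (by positivity)
      rw [him, abs_le]
      constructor <;> linarith [hy.1, hy.2]
    refine (intervalIntegral.norm_integral_le_of_norm_le_const h3).trans (le_of_eq ?_)
    have : |-τ + 1 - (-τ - 1)| = 2 := by
      have : -τ + 1 - (-τ - 1) = 2 := by ring
      rw [this]; norm_num
    rw [this]; ring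
  -- the tails
  have htail : ‖∫ t in (Set.Ioc (-R) R)ᶜ, GG χ τ N ((c : ℂ) + t * I)‖ ≤ 1728 := by
    have hbd : ∀ t : ℝ, ‖GG χ τ N ((c : ℂ) + t * I)‖ ≤ (54 * (v + 2) * N ^ 2) * (1 + t ^ 2)⁻¹ := by
      intro t
      rw [GG_eq, norm_mul, Complex.norm_natCast]
      have h1 := GR_le χ τ (v + 1 / N) hc1 t
      have h2 := GR_le χ τ v hc1 t
      rw [hcinv] at h1 h2
      have h3 := hexp c (by linarith) le_rfl
      have h4 : Real.exp (c * v) ≤ 27 * N := by
        refine (Real.exp_le_exp.2 ?_).trans h3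
        have : 0 ≤ 1 / (N : ℝ) := by positivity
        nlinarith
      have h5 : 0 < (1 + t ^ 2)⁻¹ := by positivity
      have h6 : ‖GR χ τ (v + 1 / N) ((c : ℂ) + t * I) - GR χ τ v ((c : ℂ) + t * I)‖ ≤
          (v + 2) * (27 * N) * (1 + t ^ 2)⁻¹ + (v + 2) * (27 * N) * (1 + t ^ 2)⁻¹ := by
        refine (norm_sub_le _ _).trans (add_le_add (h1.trans ?_) (h2.trans ?_)) <;> gcongr
      calc (N : ℝ) * ‖GR χ τ (v + 1 / N) ((c : ℂ) + t * I) - GR χ τ v ((c : ℂ) + t * I)‖ ≤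
          N * ((v + 2) * (27 * N) * (1 + t ^ 2)⁻¹ + (v + 2) * (27 * N) * (1 + t ^ 2)⁻¹) := by
            gcongr
        _ = _ := by ring
    have h1 : ‖∫ t in (Set.Ioc (-R) R)ᶜ, GG χ τ N ((c : ℂ) + t * I)‖ ≤
        ∫ t in (Set.Ioc (-R) R)ᶜ, (54 * (v + 2) * N ^ 2) * (1 + t ^ 2)⁻¹ :=
      norm_integral_le_of_norm_le (integrable_inv_one_add_sq.const_mul _).integrableOn
        (Eventually.of_forall fun t => hbd t)
    refine h1.trans ?_
    rw [integral_const_mul]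
    have h2 := integral_add_compl (measurableSet_Ioc (a := -R) (b := R)) integrable_inv_one_add_sq
      (μ := volume)
    rw [integral_univ_inv_one_add_sq, ← intervalIntegral.integral_of_le (by linarith),
      integral_inv_one_add_sq, Real.arctan_neg] at h2
    have h3 := tail_arctan hR1
    have h4 : ∫ t in (Set.Ioc (-R) R)ᶜ, (1 + t ^ 2)⁻¹ ≤ 2 / R := by linarith
    have h5 : (N : ℝ) ^ 3 ≤ 8 * R / 1 := by
      have h6 : (N : ℝ) ^ 3 ≤ (2 * T ^ 2) ^ 3 := pow_le_pow_left₀ hN0.le hN2 3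
      rw [div_one, hR]
      linarith
    calc 54 * (v + 2) * (N : ℝ) ^ 2 * ∫ t in (Set.Ioc (-R) R)ᶜ, (1 + t ^ 2)⁻¹ ≤
        54 * (2 * N) * (N : ℝ) ^ 2 * (2 / R) := by gcongr
      _ = 216 * (N : ℝ) ^ 3 / R := by ring
      _ ≤ 216 * (8 * R / 1) / R := by gcongr
      _ = 1728 := by field_simp; norm_num
  -- assembly
  have hGi := GG_int χ τ N hc1
  have hii : ∀ a b : ℝ, IntervalIntegrable (fun t : ℝ => GG χ τ N ((c : ℂ) + t * I)) volume a b :=
    fun a b => hGi.intervalIntegrable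
  have hnz : ∀ s : ℂ, b ≤ s.re → (1 ≤ |τ + s.im|) → DifferentiableAt ℂ (GG χ τ N) s := by
    intro s h1 h2
    refine GG_diff χ τ N ?_ ?_
    · intro h
      have := congrArg Complex.im h
      simp at this
      rw [this] at h2
      simp at h2
      linarith
    · intro h
      rw [h] at h1
      simp at h1
      linarith
  have hτlo : -(2 * T) ≤ τ := (abs_le.1 hτ2).1
  have hτhi : τ ≤ 2 * T := (abs_le.1 hτ2).2
  have hA := rect_shift (G := GG χ τ N) (b := b) (c := c) (y1 := -R) (y2 := -τ - 1) hbc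
    (by linarith) (fun s h1 _ _ h4 => hnz s h1 (by
      rw [abs_of_nonpos (by linarith)]; linarith))
  have hC := rect_shift (G := GG χ τ N) (b := b) (c := c) (y1 := -τ + 1) (y2 := R) hbc
    (by linarith) (fun s h1 _ h3 _ => hnz s h1 (by
      rw [abs_of_nonneg (by linarith)]; linarith))
  have hA1 := hfar (-R) (by rw [abs_neg, abs_of_pos hR0])
  have hC1 := hfar R (abs_of_pos hR0)
  have hA2 := hnear (-τ - 1) (by
    have : τ + (-τ - 1) = -1 := by ring
    rw [this]; norm_num)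
  have hC2 := hnear (-τ + 1) (by
    have : τ + (-τ + 1) = 1 := by ring
    rw [this]; norm_num)
  have hA3 := left_int χ hN (τ := τ) hκ0 hκ1 hκ2 (y1 := -R) (y2 := -τ - 1) (by linarith)
  have hC3 := left_int χ hN (τ := τ) hκ0 hκ1 hκ2 (y1 := -τ + 1) (y2 := R) (by linarith)
  have hcont : Continuous fun y : ℝ => (1 + |y|)⁻¹ * Lb χ κ (τ + y) := by
    have h1 := Lb_cont χ hκ1
    have h2 : Continuous fun y : ℝ => (1 + |y|)⁻¹ := by
      refine Continuous.inv₀ (by fun_prop) fun y => ?_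
      positivity
    exact h2.mul (h1.comp (by fun_prop))
  have hpos : ∀ a b : ℝ, a ≤ b → 0 ≤ ∫ y in a..b, (1 + |y|)⁻¹ * Lb χ κ (τ + y) := by
    intro a b hab
    refine intervalIntegral.integral_nonneg hab fun y _ => ?_
    unfold Lb
    positivity
  have hIsplit : ∫ y in (-R)..R, (1 + |y|)⁻¹ * Lb χ κ (τ + y) =
      (∫ y in (-R)..(-τ - 1), (1 + |y|)⁻¹ * Lb χ κ (τ + y)) +
      ((∫ y in (-τ - 1)..(-τ + 1), (1 + |y|)⁻¹ * Lb χ κ (τ + y)) +
      ∫ y in (-τ + 1)..R, (1 + |y|)⁻¹ * Lb χ κ (τ + y)) := by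
    rw [intervalIntegral.integral_add_adjacent_intervals (hcont.intervalIntegrable _ _)
      (hcont.intervalIntegrable _ _), intervalIntegral.integral_add_adjacent_intervals
      (hcont.intervalIntegrable _ _) (hcont.intervalIntegrable _ _)]
  have hIm := hpos (-τ - 1) (-τ + 1) (by linarith)
  have hGsplit : ∫ t : ℝ in (-R)..R, GG χ τ N ((c : ℂ) + t * I) =
      (∫ t : ℝ in (-R)..(-τ - 1), GG χ τ N ((c : ℂ) + t * I)) +
      ((∫ t : ℝ in (-τ - 1)..(-τ + 1), GG χ τ N ((c : ℂ) + t * I)) +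
      ∫ t : ℝ in (-τ + 1)..R, GG χ τ N ((c : ℂ) + t * I)) := by
    rw [intervalIntegral.integral_add_adjacent_intervals (hii _ _) (hii _ _),
      intervalIntegral.integral_add_adjacent_intervals (hii _ _) (hii _ _)]
  have htot : ‖∫ t : ℝ, GG χ τ N (c + t * I)‖ ≤ ‖∫ t : ℝ in (-R)..R, GG χ τ N (c + t * I)‖ +
      1728 := by
    rw [← integral_add_compl (measurableSet_Ioc (a := -R) (b := R)) hGi,
      ← intervalIntegral.integral_of_le (by linarith)]
    exact (norm_add_le _ _).trans (add_le_add le_rfl htail)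
  have htot2 : ‖∫ t : ℝ in (-R)..R, GG χ τ N ((c : ℂ) + t * I)‖ ≤
      ‖∫ t : ℝ in (-R)..(-τ - 1), GG χ τ N ((c : ℂ) + t * I)‖ +
      (‖∫ t : ℝ in (-τ - 1)..(-τ + 1), GG χ τ N ((c : ℂ) + t * I)‖ +
      ‖∫ t : ℝ in (-τ + 1)..R, GG χ τ N ((c : ℂ) + t * I)‖) := by
    rw [hGsplit]
    exact (norm_add_le _ _).trans (add_le_add le_rfl (norm_add_le _ _))
  set J : ℝ := ∫ y in (-R)..R, (1 + |y|)⁻¹ * Lb χ κ (τ + y) with hJ
  set J1 : ℝ := ∫ y in (-R)..(-τ - 1), (1 + |y|)⁻¹ * Lb χ κ (τ + y) with hJ1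
  set J2 : ℝ := ∫ y in (-τ + 1)..R, (1 + |y|)⁻¹ * Lb χ κ (τ + y) with hJ2
  have hpi : (2 * π)⁻¹ ≤ 1 := by
    apply inv_le_one_of_one_le₀
    have := Real.pi_gt_three
    linarith
  have hfin : ‖(N : ℂ) * (RS χ τ (v + 1 / N) - RS χ τ v)‖ ≤ ‖∫ t : ℝ, GG χ τ N (c + t * I)‖ := by
    rw [hv, GG_line χ τ N hc1, norm_smul, Real.norm_of_nonneg (by positivity)]
    exact mul_le_of_le_one_left (norm_nonneg _) hpi
  have h0 := unsmooth χ τ hN
  rw [← hv] at h0
  have hsum : ‖∑ n ∈ Finset.Ioc 0 N, χ (n : ZMod q) * nt τ n‖ ≤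
      90 * Real.sqrt N * J + 41040 * (q * Real.sqrt N) + 162 * (v + 2) * Real.sqrt N + 1729 := by
    have h90 : 90 * Real.sqrt N * J1 + 90 * Real.sqrt N * J2 ≤ 90 * Real.sqrt N * J := by
      rw [← mul_add]
      apply mul_le_mul_of_nonneg_left _ (by positivity)
      rw [hIsplit]; linarith
    linarith
  refine hsum.trans ?_
  have hJ0 : 0 ≤ J := hpos (-R) R (by linarith)
  have p1 : 0 ≤ Real.sqrt N * J := by positivity
  have p2 : 2 * (q * Real.sqrt N) ≤ q * (2 + v) * Real.sqrt N := by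
    have : 0 ≤ (q : ℝ) * v * Real.sqrt N := by positivity
    nlinarith
  have p3 : (v + 2) * Real.sqrt N ≤ q * (2 + v) * Real.sqrt N := by
    apply mul_le_mul_of_nonneg_right _ (Real.sqrt_nonneg _)
    nlinarith
  have p4 : (1 : ℝ) ≤ q * Real.sqrt N := by nlinarith
  nlinarith

end shift

end Pool.Agent.V5helper81.CR6
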